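import Pool.Agent.MP_a83649_an.WS.Mul

/-! Row and column sums, and the square function estimate, for the two forests. -/

open Finset

namespace Pool.Agent.MP_a83649_an.WS

lemma geo_le {τ : ℝ} (h0 : 0 ≤ τ) (h1 : τ < 1) (K : ℕ) : ∑ n ∈ range K, τ ^ n ≤ (1 - τ)⁻¹ :=
  sum_le_hasSum _ (fun _ _ => by positivity) (hasSum_geometric_of_lt_one h0 h1)

section pm

variable {α : Type*} (s : Finset α) (a : α → ℝ) {r m : ℝ}

lemma pm_a (ha : ∀ i, 0 ≤ a i) (hr : 1 ≤ r) : ∑ i ∈ s, a i ^ r ≤ (∑ i ∈ s, a i) ^ r := by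
  have h0 : 0 ≤ ∑ i ∈ s, a i := sum_nonneg fun i _ => ha i
  have e : ∀ u : ℝ, 0 ≤ u → u ^ r = u ^ (r - 1) * u := fun u hu => by
    rw [← Real.rpow_add_one' hu (by linarith), sub_add_cancel]
  rw [e _ h0, mul_sum]
  refine sum_le_sum fun i hi => ?_
  rw [e _ (ha i)]
  exact mul_le_mul_of_nonneg_right (Real.rpow_le_rpow (ha i)
    (single_le_sum (fun i _ => ha i) hi) (by linarith)) (ha i)

lemma pm_b (ha : ∀ i, 0 ≤ a i) (hr : 1 ≤ r) (hm : (s.card : ℝ) ≤ m) :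
    (∑ i ∈ s, a i) ^ r ≤ m ^ (r - 1) * ∑ i ∈ s, a i ^ r := by
  simpa using jensen s (B := m) hr (fun _ => 1) a (fun _ => zero_le_one) ha (by simpa using hm)

lemma pm1 (ha : ∀ i, 0 ≤ a i) (hr : 0 < r) (hm : (s.card : ℝ) ≤ m) :
    (∑ i ∈ s, a i) ^ r ≤ m ^ max (r - 1) 0 * ∑ i ∈ s, a i ^ r := by
  rcases le_total 1 r with h | h
  · rw [max_eq_left (by linarith)]; exact pm_b s a ha h hm
  · rw [max_eq_right (by linarith), Real.rpow_zero, one_mul]
    have h1 := pm_a s (fun i => a i ^ r) (fun i => Real.rpow_nonneg (ha i) _)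
      ((one_le_inv₀ hr).2 h)
    simp only [fun i => Real.rpow_rpow_inv (ha i) hr.ne'] at h1
    have h2 := Real.rpow_le_rpow (sum_nonneg fun i _ => ha i) h1 hr.le
    rwa [Real.rpow_inv_rpow (sum_nonneg fun i _ => Real.rpow_nonneg (ha i) _) hr.ne'] at h2

lemma pm2 (ha : ∀ i, 0 ≤ a i) (hr : 0 < r) (hm : (s.card : ℝ) ≤ m) :
    ∑ i ∈ s, a i ^ r ≤ m ^ max (1 - r) 0 * (∑ i ∈ s, a i) ^ r := by
  rcases le_total 1 r with h | h
  · rw [max_eq_right (by linarith), Real.rpow_zero, one_mul]; exact pm_a s a ha h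
  · rw [max_eq_left (by linarith)]
    have hm0 : 0 ≤ m := (Nat.cast_nonneg _).trans hm
    have h0 : 0 ≤ ∑ i ∈ s, a i ^ r := sum_nonneg fun i _ => Real.rpow_nonneg (ha i) _
    have h1 := pm_b s (fun i => a i ^ r) (fun i => Real.rpow_nonneg (ha i) _)
      ((one_le_inv₀ hr).2 h) hm
    simp only [fun i => Real.rpow_rpow_inv (ha i) hr.ne'] at h1
    have h2 := Real.rpow_le_rpow (Real.rpow_nonneg h0 _) h1 hr.le
    rwa [Real.rpow_inv_rpow h0 hr.ne', Real.mul_rpow (Real.rpow_nonneg hm0 _)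
      (sum_nonneg fun i _ => ha i), ← Real.rpow_mul hm0, sub_mul, inv_mul_cancel₀ hr.ne',
      one_mul] at h2

end pm

lemma geo_sq {γ r : ℝ} (h0 : 0 < γ) (h1 : γ < 1) (hr : 0 < r) : ∃ C η : ℝ, 0 ≤ C ∧ 0 ≤ η ∧ η < 1 ∧
    ∀ (N K : ℕ) (v : Fin N → ℕ → ℝ), (∀ j n, 0 ≤ v j n) →
      (∑ j, (∑ n ∈ range K, γ ^ n * v j n) ^ 2) ^ r ≤
        C * ∑ n ∈ range K, η ^ n * (∑ j, v j n ^ 2) ^ r := by
  set ζ := √γ with hζ
  have z0 : 0 < ζ := Real.sqrt_pos.2 h0
  have z1 : ζ < 1 := by rw [hζ, Real.sqrt_lt' one_pos]; simpa using h1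
  have z2 : γ = ζ * ζ := (Real.mul_self_sqrt h0.le).symm
  have p1 : 0 < (1 - γ)⁻¹ := inv_pos.2 (by linarith)
  have p2 : 0 < (1 - ζ)⁻¹ := inv_pos.2 (by linarith)
  refine ⟨((1 - γ)⁻¹ * (1 - ζ)⁻¹) ^ r, ζ ^ r, by positivity, by positivity,
    Real.rpow_lt_one z0.le z1 hr, fun N K v hv => ?_⟩
  set T := ∑ n ∈ range K, (ζ ^ r) ^ n * (∑ j, v j n ^ 2) ^ r with hT
  have hT0 : 0 ≤ T := by positivity
  have h2 : ∀ n ∈ range K, ζ ^ n * ∑ j, v j n ^ 2 ≤ T ^ r⁻¹ := by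
    intro n hn
    rw [Real.le_rpow_inv_iff_of_pos (by positivity) hT0 hr, Real.mul_rpow (by positivity)
      (by positivity), ← Real.rpow_natCast, ← Real.rpow_mul z0.le, mul_comm (n : ℝ),
      Real.rpow_mul z0.le, Real.rpow_natCast]
    exact single_le_sum (f := fun n => (ζ ^ r) ^ n * (∑ j, v j n ^ 2) ^ r)
      (fun _ _ => by positivity) hn
  have h3 : ∑ j, (∑ n ∈ range K, γ ^ n * v j n) ^ 2 ≤ (1 - γ)⁻¹ * (1 - ζ)⁻¹ * T ^ r⁻¹ := by
    calc _ ≤ ∑ j, (1 - γ)⁻¹ * ∑ n ∈ range K, γ ^ n * v j n ^ 2 := by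
          refine sum_le_sum fun j _ => ?_
          have := jensen (range K) (q := 2) one_le_two (fun n => γ ^ n) (v j)
            (fun _ => by positivity) (hv j) (geo_le h0.le h1 K)
          norm_num at this ⊢
          exact this
      _ = (1 - γ)⁻¹ * ∑ n ∈ range K, ζ ^ n * (ζ ^ n * ∑ j, v j n ^ 2) := by
          rw [← mul_sum, sum_comm]
          congr 1
          refine sum_congr rfl fun n _ => ?_
          rw [← mul_sum, z2, mul_pow, mul_assoc]
      _ ≤ (1 - γ)⁻¹ * ((1 - ζ)⁻¹ * T ^ r⁻¹) := by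
          gcongr
          refine (sum_le_sum fun n hn => mul_le_mul_of_nonneg_left (h2 n hn)
            (by positivity)).trans ?_
          rw [← sum_mul]
          gcongr
          exact geo_le z0.le z1 K
      _ = _ := by ring
  refine (Real.rpow_le_rpow (by positivity) h3 hr.le).trans (le_of_eq ?_)
  rw [Real.mul_rpow (by positivity) (by positivity), Real.rpow_inv_rpow hT0 hr.ne']

variable {θ : Bool → ℝ} {τ : ℝ} {φ : ℕ → ℝ} {B : ℝ}

lemma pow_le_tau (h0 : ∀ s, 0 ≤ θ s) (h1 : ∀ s, θ s ≤ τ) (hτ : τ < 1) (s : Bool) (n : ℕ) :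
    θ s ^ (n + 1) ≤ τ ^ n := by
  have := (h0 s).trans (h1 s)
  calc θ s ^ (n + 1) ≤ τ ^ (n + 1) := pow_le_pow_left₀ (h0 s) (h1 s) _
    _ ≤ τ ^ n := pow_le_pow_of_le_one this hτ.le (Nat.le_succ n)

lemma tree_w_nonneg (h0 : ∀ s, 0 ≤ θ s) (hφ : Mon φ B) (a : Nd) (k : (_ : ℕ) × Nd) :
    0 ≤ (tree θ).w φ a k := mul_nonneg (pow_nonneg (h0 _) _) (dl_nonneg hφ _)

lemma tree_row (h0 : ∀ s, 0 ≤ θ s) (h1 : ∀ s, θ s ≤ τ) (hτ : τ < 1) (hφ : Mon φ B) (a : Nd) :
    ∑ k ∈ (tree θ).S a, (tree θ).w φ a k ≤ 2 * (1 - τ)⁻¹ * B := by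
  have hτ0 := (h0 true).trans (h1 true)
  have hB := hφ.nonneg
  simp only [tree_w]
  rw [sum_S θ a le_rfl fun n y => θ a.1 ^ (n + 1) * dl φ (low a y)]
  calc _ ≤ ∑ n ∈ range (a.2.1 + a.2.2), τ ^ n * (2 * B) := by
        refine sum_le_sum fun n _ => ?_
        rw [← mul_sum]
        exact mul_le_mul (pow_le_tau h0 h1 hτ _ n) (row_E hφ _ a)
          (sum_nonneg fun _ _ => dl_nonneg hφ _) (by positivity)
    _ ≤ (1 - τ)⁻¹ * (2 * B) := by
        rw [← sum_mul]; gcongr; exact geo_le hτ0 hτ _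
    _ = _ := by ring

lemma tree_col (h0 : ∀ s, 0 ≤ θ s) (h1 : ∀ s, θ s ≤ τ) (hτ : τ < 1) (hφ : Mon φ B) (b : Nd)
    (F : Finset Nd) : ∑ a ∈ F, ∑ k ∈ (tree θ).S a with (tree θ).nb a k = b, (tree θ).w φ a k ≤
      2 * (1 - τ)⁻¹ * B := by
  have hτ0 := (h0 true).trans (h1 true)
  have hB := hφ.nonneg
  set K := F.sup fun a => a.2.1 + a.2.2
  calc _ = ∑ a ∈ F, ∑ n ∈ range K, ∑ y ∈ E (n + 1) a,
          if y = b then θ a.1 ^ (n + 1) * dl φ (low a y) else 0 := by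
        refine sum_congr rfl fun a ha => ?_
        rw [sum_filter]
        exact sum_S θ a (le_sup (f := fun a : Nd => a.2.1 + a.2.2) ha)
          fun n y => if y = b then θ a.1 ^ (n + 1) * dl φ (low a y) else 0
    _ ≤ ∑ n ∈ range K, τ ^ n * (2 * B) := by
        rw [sum_comm]
        refine sum_le_sum fun n _ => ?_
        simp only [sum_ite_eq']
        rw [← sum_filter]
        refine le_trans ?_ (mul_le_mul_of_nonneg_left (col_E hφ (n + 1) b) (by positivity))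
        rw [mul_sum]
        refine le_trans (sum_le_sum fun a _ => mul_le_mul_of_nonneg_right
          (pow_le_tau h0 h1 hτ _ n) (dl_nonneg hφ _)) ?_
        exact sum_le_sum_of_subset_of_nonneg (fun a ha => mem_E'.2 (mem_filter.1 ha).2)
          fun a _ _ => mul_nonneg (by positivity) (dl_nonneg hφ _)
    _ ≤ (1 - τ)⁻¹ * (2 * B) := by
        rw [← sum_mul]; gcongr; exact geo_le hτ0 hτ _
    _ = _ := by ring

/-- The system on `ℓ_q`. -/
noncomputable def treeSys (h0 : ∀ s, 0 ≤ θ s) (h1 : ∀ s, θ s ≤ τ) (hτ : τ < 1) {q : ℝ}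
    (hq : 1 ≤ q) : Sys2 Nd ((_ : ℕ) × Nd) q where
  toDat := tree θ
  C0 := 2 * (1 - τ)⁻¹
  C0_nonneg := by have : 0 < 1 - τ := by linarith
                  positivity
  c_nonneg a k := pow_nonneg (h0 _) _
  lo_le a k _ := (Nat.le_succ _).trans (lev_lt _)
  mul := tree_mul θ
  col b := by
    refine Set.Finite.subset (finite_toSet ((range (b.2.1 + b.2.2)).biUnion
      fun n => E' (n + 1) b)) ?_
    rintro a ⟨k, hk, rfl⟩
    have h2 : a ∈ E' (k.1 + 1) k.2 := mem_E'.2 (mem_sigma.1 hk).2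
    refine mem_coe.2 (mem_biUnion.2 ⟨k.1, mem_range.2 ?_, h2⟩)
    by_contra h3
    rw [E'_empty (by simp only [tree] at h3; omega)] at h2
    simp at h2
  bound φ B h2 h3 h4 x M hx hM F := by
    have hφ : Mon φ B := ⟨h2, h3, h4⟩
    have : 0 < 1 - τ := by linarith
    have := hφ.nonneg
    exact (tree θ).schur hq (by positivity) (fun a k _ => tree_w_nonneg h0 hφ a k)
      (tree_row h0 h1 hτ hφ) (tree_col h0 h1 hτ hφ) x M hx hM F

/-- The square function estimate for one generation. -/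
lemma gen_bound {q γ : ℝ} (hq : 0 < q) (h0 : ∀ s, 0 ≤ θ s) (hγ0 : 0 ≤ γ)
    (hγ : ∀ s, θ s ^ q * (if s then 2 else 1) ^ max (q / 2 - 1) 0 *
      (if s then 1 else 2) ^ max (1 - q / 2) 0 ≤ γ ^ q)
    {N : ℕ} {φ : Fin N → ℕ → ℝ} (hB : 0 ≤ B) (hφ : ∀ j, Mon (φ j) B) {x : Fin N → Nd → ℝ} {M : ℝ}
    (hx : ∀ j a, 0 ≤ x j a) (hM : ∀ F : Finset Nd, ∑ a ∈ F, (∑ j, x j a ^ 2) ^ (q / 2) ≤ M)
    (n : ℕ) (F : Finset Nd) :
    ∑ a ∈ F, (θ a.1 ^ n) ^ q * (∑ j, (∑ y ∈ E n a, dl (φ j) (low a y) * x j y) ^ 2) ^ (q / 2) ≤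
      (γ ^ n) ^ q * (2 * B) ^ q * M := by
  have hr : 0 < q / 2 := by positivity
  let Y : Nd → Nd → ℝ := fun a y => ∑ j, dl (φ j) (low a y) * x j y ^ 2
  have hY : ∀ a y, 0 ≤ Y a y := fun a y =>
    sum_nonneg fun j _ => mul_nonneg (dl_nonneg (hφ j) _) (sq_nonneg _)
  let w : Bool → ℝ := fun s => (θ s ^ n) ^ q * ((if s then 2 else 1) ^ n) ^ max (q / 2 - 1) 0
  have hw : ∀ s, 0 ≤ w s := fun s => by
    have := h0 s
    simp only [w]; split_ifs <;> positivity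
  have e : ∀ (u t : ℝ), 0 ≤ u → (u ^ n) ^ t = (u ^ t) ^ n := fun u t hu => by
    rw [← Real.rpow_natCast, ← Real.rpow_natCast, ← Real.rpow_mul hu, ← Real.rpow_mul hu, mul_comm]
  have hw2 : ∀ s, w s * ((if s then 1 else 2) ^ n) ^ max (1 - q / 2) 0 ≤ (γ ^ n) ^ q := by
    intro s
    have p1 : (0 : ℝ) ≤ if s then 2 else 1 := by split_ifs <;> norm_num
    have p2 : (0 : ℝ) ≤ if s then 1 else 2 := by split_ifs <;> norm_num
    have := h0 s
    simp only [w]
    rw [e _ _ (h0 s), e _ _ p1, e _ _ p2, e _ _ hγ0, ← mul_pow, ← mul_pow]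
    exact pow_le_pow_left₀ (by positivity) (hγ s) n
  have h1 : ∀ a : Nd, (θ a.1 ^ n) ^ q *
      (∑ j, (∑ y ∈ E n a, dl (φ j) (low a y) * x j y) ^ 2) ^ (q / 2) ≤
      (2 * B) ^ (q / 2) * ∑ y ∈ E n a, w y.1 * Y a y ^ (q / 2) := by
    intro a
    have h2 : ∑ j, (∑ y ∈ E n a, dl (φ j) (low a y) * x j y) ^ 2 ≤ 2 * B * ∑ y ∈ E n a, Y a y := by
      simp only [Y]
      rw [sum_comm, mul_sum]
      refine sum_le_sum fun j _ => ?_
      have := jensen (E n a) (q := 2) one_le_two (fun y => dl (φ j) (low a y)) (x j)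
        (fun _ => dl_nonneg (hφ j) _) (hx j) (row_E (hφ j) n a)
      norm_num at this ⊢
      exact this
    have h3 := pm1 (E n a) (Y a) (hY a) hr (card_E n a)
    have := h0 a.1
    rw [sum_congr rfl (g := fun y => w a.1 * Y a y ^ (q / 2)) fun y hy => by rw [side_E hy],
      ← mul_sum, mul_left_comm]
    simp only [w]
    rw [mul_assoc]
    gcongr
    refine (Real.rpow_le_rpow (by positivity) h2 hr.le).trans ?_
    rw [Real.mul_rpow (by positivity) (sum_nonneg fun y _ => hY a y), mul_left_comm]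
    exact mul_le_mul_of_nonneg_left h3 (by positivity)
  have h2 : ∀ y : Nd, ∑ a ∈ E' n y, w y.1 * Y a y ^ (q / 2) ≤
      (γ ^ n) ^ q * (2 * B) ^ (q / 2) * (∑ j, x j y ^ 2) ^ (q / 2) := by
    intro y
    have h3 := pm2 (E' n y) (fun a => Y a y) (fun a => hY a y) hr (card_E' n y)
    have h4 : ∑ a ∈ E' n y, Y a y ≤ 2 * B * ∑ j, x j y ^ 2 := by
      simp only [Y]
      rw [sum_comm, mul_sum]
      refine sum_le_sum fun j _ => ?_
      rw [← sum_mul]
      exact mul_le_mul_of_nonneg_right (col_E (hφ j) n y) (sq_nonneg _)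
    rw [← mul_sum]
    refine (mul_le_mul_of_nonneg_left h3 (hw _)).trans ?_
    rw [← mul_assoc, mul_assoc ((γ ^ n) ^ q), ← Real.mul_rpow (by positivity) (by positivity)]
    exact mul_le_mul (hw2 _) (Real.rpow_le_rpow (sum_nonneg fun a _ => hY a y) h4 hr.le)
      (Real.rpow_nonneg (sum_nonneg fun a _ => hY a y) _) (by positivity)
  calc _ ≤ (2 * B) ^ (q / 2) * ∑ a ∈ F, ∑ y ∈ E n a, w y.1 * Y a y ^ (q / 2) := by
        rw [mul_sum]; exact sum_le_sum fun a _ => h1 a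
    _ ≤ (2 * B) ^ (q / 2) * ((γ ^ n) ^ q * (2 * B) ^ (q / 2) * M) := by
        gcongr
        refine (sum_E_le n F _ fun a y => mul_nonneg (hw _) (Real.rpow_nonneg (hY a y) _)).trans
          ((sum_le_sum fun y _ => h2 y).trans ?_)
        rw [← mul_sum]
        gcongr
        exact hM _
    _ = _ := by
        rw [← add_halves q, Real.rpow_add' (x := 2 * B) (by positivity) (by linarith), add_halves]
        ring

lemma tree_sqB {q γ : ℝ} (hq : 0 < q) (h0 : ∀ s, 0 ≤ θ s) (hγ0 : 0 < γ) (hγ1 : γ < 1)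
    (hγ : ∀ s, θ s ^ q * (if s then 2 else 1) ^ max (q / 2 - 1) 0 *
      (if s then 1 else 2) ^ max (1 - q / 2) 0 ≤ γ ^ q) : (tree θ).SqB q := by
  obtain ⟨C, η, hC, η0, η1, h⟩ := geo_sq hγ0 hγ1 (r := q / 2) (by positivity)
  have p1 : 0 < (1 - η)⁻¹ := inv_pos.2 (by linarith)
  refine ⟨(C * (1 - η)⁻¹) ^ q⁻¹ * 2, by positivity, fun N φ B hB hφ x M hx hM F => ?_⟩
  have hM0 : 0 ≤ M := by simpa using hM ∅
  set K := F.sup fun a => a.2.1 + a.2.2
  let T : Fin N → ℕ → Nd → ℝ := fun j n a => ∑ y ∈ E n a, dl (φ j) (low a y) * x j y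
  have hT : ∀ j n a, 0 ≤ T j n a := fun j n a =>
    sum_nonneg fun y _ => mul_nonneg (dl_nonneg (hφ j) _) (hx j y)
  calc _ ≤ ∑ a ∈ F, C * ∑ n ∈ range K, η ^ n * (((γ ^ n)⁻¹) ^ q *
          ((θ a.1 ^ (n + 1)) ^ q * (∑ j, T j (n + 1) a ^ 2) ^ (q / 2))) := by
        refine sum_le_sum fun a ha => ?_
        have := h0 a.1
        have h1 := h N K (fun j n => (γ ^ n)⁻¹ * θ a.1 ^ (n + 1) * T j (n + 1) a)
          fun j n => mul_nonneg (by positivity) (hT j _ a)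
        refine le_of_eq_of_le ?_ (h1.trans (le_of_eq ?_))
        · congr 1
          refine sum_congr rfl fun j _ => ?_
          congr 1
          simp only [tree_w]
          refine (sum_S θ a (le_sup (f := fun a : Nd => a.2.1 + a.2.2) ha)
            fun n y => θ a.1 ^ (n + 1) * dl (φ j) (low a y) * x j y).trans
            (sum_congr rfl fun n _ => ?_)
          simp only [T, mul_assoc, ← mul_sum]
          rw [mul_inv_cancel_left₀ (by positivity)]
        · congr 1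
          refine sum_congr rfl fun n _ => ?_
          simp only [mul_pow (_ * _), ← mul_sum]
          rw [Real.mul_rpow (by positivity) (by positivity), sq_rpow _ (by positivity),
            Real.mul_rpow (by positivity) (by positivity), mul_assoc]
    _ ≤ C * ∑ n ∈ range K, η ^ n * ((2 * B) ^ q * M) := by
        rw [← mul_sum, sum_comm]
        gcongr with n hn
        rw [← mul_sum, ← mul_sum]
        refine mul_le_mul_of_nonneg_left ?_ (by positivity)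
        refine (mul_le_mul_of_nonneg_left (gen_bound hq h0 hγ0.le hγ hB hφ hx hM (n + 1) F)
          (by positivity)).trans ?_
        rw [mul_assoc, ← mul_assoc, ← Real.mul_rpow (by positivity) (by positivity), pow_succ,
          inv_mul_cancel_left₀ (by positivity)]
        exact mul_le_of_le_one_left (by positivity) (Real.rpow_le_one hγ0.le hγ1.le hq.le)
    _ ≤ C * ((1 - η)⁻¹ * ((2 * B) ^ q * M)) := by
        rw [← sum_mul]; gcongr; exact geo_le η0 η1 K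
    _ = _ := by
        rw [mul_assoc _ 2, Real.mul_rpow (x := _ ^ q⁻¹) (by positivity) (by positivity),
          Real.rpow_inv_rpow (by positivity) hq.ne']
        ring

end Pool.Agent.MP_a83649_an.WS
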