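import Pool.Agent.MP_a83649_an.Defs

/-! The angle of R-sectoriality and R-analyticity. -/

open Set

namespace Pool.Agent.MP_a83649_an

variable {X : Type*} [NormedAddCommGroup X] [NormedSpace ℂ X]

/-- The angle of R-sectoriality `ω_R(A)`. -/
noncomputable def angleR (A : Op X) : ℝ :=
  sInf {ω ∈ Ioo (angle A) Real.pi | RBounded {T | ∃ l ∉ closure (sector ω), T = l • res A l}}

/-- R-analytic operators: R-sectorial with `ω_R(A) < π/2`. -/
def RAnalytic (A : Op X) : Prop := RSectorial A ∧ angleR A < Real.pi / 2

end Pool.Agent.MP_a83649_an
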