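import Pool.Agent.MP_a83649_an.Properties

/-! A formal functional calculus given by a kernel with finite rows and columns. -/

open MeasureTheory Filter Topology Set Complex

namespace Pool.Agent.MP_a83649_an.WS

/-- Levels and the kernel of a formal functional calculus. -/
structure Dat (ι κ : Type*) where
  lev : ι → ℕ
  S : ι → Finset κ
  nb : ι → κ → ι
  c : ι → κ → ℝ
  lo : ι → κ → ℕ
  hi : ι → κ → ℕ

/-- The formal operator `g(A)` on all functions `ι → ℂ`. -/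
def Dat.P {ι κ : Type*} (s : Dat ι κ) (g : ℕ → ℂ) : (ι → ℂ) →ₗ[ℂ] (ι → ℂ) where
  toFun x a := g (s.lev a) * x a +
    ∑ k ∈ s.S a, s.c a k * (g (s.lo a k) - g (s.hi a k)) * x (s.nb a k)
  map_add' x y := by
    funext a; simp only [Pi.add_apply, mul_add, Finset.sum_add_distrib]; ring
  map_smul' c x := by
    funext a
    simp only [Pi.smul_apply, smul_eq_mul, RingHom.id_apply, mul_add, Finset.mul_sum]
    congr 1
    · ring
    · exact Finset.sum_congr rfl fun _ _ => by ring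

lemma Dat.P_apply {ι κ : Type*} (s : Dat ι κ) (g : ℕ → ℂ) (x : ι → ℂ) (a : ι) :
    s.P g x a = g (s.lev a) * x a +
      ∑ k ∈ s.S a, s.c a k * (g (s.lo a k) - g (s.hi a k)) * x (s.nb a k) := rfl

/-- A multiplicative formal calculus that is bounded on `ℓ_q` for monotone functions. -/
structure Sys2 (ι κ : Type*) (q : ℝ) extends Dat ι κ where
  C0 : ℝ
  C0_nonneg : 0 ≤ C0
  c_nonneg : ∀ a k, 0 ≤ c a k
  lo_le : ∀ a, ∀ k ∈ S a, lo a k ≤ hi a k
  mul : ∀ (g h : ℕ → ℂ) (x : ι → ℂ), toDat.P g (toDat.P h x) = toDat.P (fun n => g n * h n) x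
  col : ∀ b, {a | ∃ k ∈ S a, nb a k = b}.Finite
  bound : ∀ (φ : ℕ → ℝ) (B : ℝ), Antitone φ → (∀ n, 0 ≤ φ n) → (∀ n, φ n ≤ B) →
    ∀ (x : ι → ℝ) (M : ℝ), (∀ a, 0 ≤ x a) → (∀ F : Finset ι, ∑ a ∈ F, x a ^ q ≤ M) →
    ∀ F : Finset ι, ∑ a ∈ F,
      (∑ k ∈ S a, c a k * (φ (lo a k) - φ (hi a k)) * x (nb a k)) ^ q ≤ (C0 * B) ^ q * M

namespace Sys2

variable {ι κ : Type*} {q : ℝ} (s : Sys2 ι κ q)

/-- The formal operator `g(A)`. -/
abbrev P (g : ℕ → ℂ) : (ι → ℂ) →ₗ[ℂ] (ι → ℂ) := s.toDat.P g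

lemma P_apply (g : ℕ → ℂ) (x : ι → ℂ) (a : ι) : s.P g x a = g (s.lev a) * x a +
    ∑ k ∈ s.S a, s.c a k * (g (s.lo a k) - g (s.hi a k)) * x (s.nb a k) := rfl

lemma P_mul (g h : ℕ → ℂ) (x : ι → ℂ) : s.P g (s.P h x) = s.P (fun n => g n * h n) x :=
  s.mul g h x

lemma term_le {g : ℕ → ℂ} {φ : ℕ → ℝ} (hφ : Antitone φ) (h2 : ∀ n k, ‖g n - g k‖ ≤ |φ n - φ k|)
    (x : ι → ℂ) (a : ι) : ‖∑ k ∈ s.S a, s.c a k * (g (s.lo a k) - g (s.hi a k)) * x (s.nb a k)‖ ≤
      ∑ k ∈ s.S a, s.c a k * (φ (s.lo a k) - φ (s.hi a k)) * ‖x (s.nb a k)‖ := by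
  refine (norm_sum_le _ _).trans (Finset.sum_le_sum fun k hk => ?_)
  rw [norm_mul, norm_mul, norm_real, Real.norm_of_nonneg (s.c_nonneg a k)]
  have h3 := h2 (s.lo a k) (s.hi a k)
  rw [abs_of_nonneg (sub_nonneg.2 (hφ (s.lo_le a k hk)))] at h3
  have := s.c_nonneg a k
  gcongr

lemma P_const (z : ℂ) (x : ι → ℂ) : s.P (fun _ => z) x = z • x := by
  funext a; simp [P_apply]

lemma P_lin (u v : ℂ) (g h : ℕ → ℂ) (x : ι → ℂ) :
    s.P (fun n => u * g n + v * h n) x = u • s.P g x + v • s.P h x := by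
  funext a
  simp only [P_apply, Pi.add_apply, Pi.smul_apply, smul_eq_mul, mul_add, Finset.mul_sum]
  rw [add_add_add_comm, ← Finset.sum_add_distrib]
  congr 1
  · ring
  · exact Finset.sum_congr rfl fun _ _ => by ring

lemma P_smul (u : ℂ) (g : ℕ → ℂ) (x : ι → ℂ) : s.P (fun n => u * g n) x = u • s.P g x := by
  simpa using s.P_lin u 0 g g x

lemma P_sub (g h : ℕ → ℂ) (x : ι → ℂ) : s.P (fun n => g n - h n) x = s.P g x - s.P h x := by
  simpa [sub_eq_add_neg] using s.P_lin 1 (-1) g h x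

lemma P_tendsto {α : Type*} {l : Filter α} {g : α → ℕ → ℂ} {g0 : ℕ → ℂ}
    (h : ∀ n, Tendsto (fun i => g i n) l (𝓝 (g0 n))) (x : ι → ℂ) (a : ι) :
    Tendsto (fun i => s.P (g i) x a) l (𝓝 (s.P g0 x a)) :=
  ((h _).mul_const _).add (tendsto_finsetSum _ fun _ _ =>
    (((h _).sub (h _)).const_mul _).mul_const _)

lemma P_integral {μ : Measure ℝ} {g : ℝ → ℕ → ℂ} (h : ∀ n, Integrable (fun r => g r n) μ)
    (x : ι → ℂ) (a : ι) : ∫ r, s.P (g r) x a ∂μ = s.P (fun n => ∫ r, g r n ∂μ) x a := by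
  simp only [P_apply]
  have hi : ∀ k ∈ s.S a, Integrable (fun r =>
      s.c a k * (g r (s.lo a k) - g r (s.hi a k)) * x (s.nb a k)) μ := fun _ _ =>
    (((h _).sub (h _)).const_mul _).mul_const _
  rw [integral_add ((h _).mul_const _) (integrable_finsetSum _ hi), integral_mul_const,
    integral_finsetSum _ hi]
  congr 1
  refine Finset.sum_congr rfl fun k _ => ?_
  rw [integral_mul_const, integral_const_mul, integral_sub (h _) (h _)]

lemma P_single [DecidableEq ι] (g : ℕ → ℂ) (b a : ι)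
    (ha : a ∉ insert b (s.col b).toFinset) : s.P g (Pi.single b 1) a = 0 := by
  simp only [Finset.mem_insert, Finite.mem_toFinset, mem_ofPred_eq, not_or, not_exists,
    not_and] at ha
  rw [P_apply, Pi.single_eq_of_ne ha.1, mul_zero, zero_add]
  exact Finset.sum_eq_zero fun k hk => by rw [Pi.single_eq_of_ne (ha.2 k hk), mul_zero]

variable {X : Type*} [NormedAddCommGroup X] [NormedSpace ℂ X] (m : Model X ι q)

lemma exists_Phi {g : ℕ → ℂ} {B : ℝ} (hg : Good g B) :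
    ∃ T : X →L[ℂ] X, (∀ x, m.ev (T x) = s.P g (m.ev x)) ∧ ‖T‖ ≤ (1 + s.C0) * B := by
  have hB := hg.nonneg
  have hC := s.C0_nonneg
  have hq := m.pos
  obtain ⟨h1, φ, hφ, hφ0, hφB, h2⟩ := hg
  refine m.exists_op _ (by positivity) fun x => ?_
  obtain ⟨y1, hy1, n1⟩ := m.exists_of_le (f := fun a => g (s.lev a) * m.ev x a) (M := B * ‖x‖)
    (by positivity) (fun F => by
      calc ∑ a ∈ F, ‖g (s.lev a) * m.ev x a‖ ^ q ≤ ∑ a ∈ F, B ^ q * ‖m.ev x a‖ ^ q := by
            refine Finset.sum_le_sum fun a _ => ?_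
            rw [← Real.mul_rpow hB (norm_nonneg _), norm_mul]
            gcongr
            exact h1 _
        _ ≤ (B * ‖x‖) ^ q := by
            rw [← Finset.mul_sum, Real.mul_rpow hB (norm_nonneg _)]
            gcongr
            exact m.sum_le x F)
  obtain ⟨y2, hy2, n2⟩ := m.exists_of_le (f := fun a => ∑ k ∈ s.S a,
      s.c a k * (g (s.lo a k) - g (s.hi a k)) * m.ev x (s.nb a k)) (M := s.C0 * B * ‖x‖)
    (by positivity) (fun F => by
      rw [Real.mul_rpow (by positivity) (norm_nonneg _)]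
      refine le_trans (Finset.sum_le_sum fun a _ => ?_)
        (s.bound φ B hφ hφ0 hφB (fun a => ‖m.ev x a‖) _ (fun _ => norm_nonneg _) (m.sum_le x) F)
      gcongr
      exact s.term_le hφ h2 _ a)
  refine ⟨y1 + y2, ?_, (norm_add_le _ _).trans (by nlinarith)⟩
  rw [map_add, hy1, hy2]; rfl

open Classical in
/-- The bounded operator `g(A)` (when it exists). -/
noncomputable def Phi (g : ℕ → ℂ) : X →L[ℂ] X :=
  if h : ∃ T : X →L[ℂ] X, ∀ x, m.ev (T x) = s.P g (m.ev x) then h.choose else 0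

lemma Phi_eq {g : ℕ → ℂ} {T : X →L[ℂ] X} (h : ∀ x, m.ev (T x) = s.P g (m.ev x)) :
    s.Phi m g = T := by
  have h' : ∃ T : X →L[ℂ] X, ∀ x, m.ev (T x) = s.P g (m.ev x) := ⟨T, h⟩
  rw [Phi, dif_pos h']
  ext x
  exact m.inj (by rw [h'.choose_spec, h])

lemma ev_Phi {g : ℕ → ℂ} {B : ℝ} (hg : Good g B) (x : X) :
    m.ev (s.Phi m g x) = s.P g (m.ev x) := by
  obtain ⟨T, h, -⟩ := s.exists_Phi m hg
  rw [s.Phi_eq m h, h]

lemma norm_Phi {g : ℕ → ℂ} {B : ℝ} (hg : Good g B) : ‖s.Phi m g‖ ≤ (1 + s.C0) * B := by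
  obtain ⟨T, h, h'⟩ := s.exists_Phi m hg
  rwa [s.Phi_eq m h]

lemma Phi_tendsto {α : Type*} {l : Filter α} {g : α → ℕ → ℂ} {g0 : ℕ → ℂ} {B : ℝ}
    (hg : ∀ᶠ i in l, Good (g i) B) (hg0 : Good g0 B)
    (h : ∀ n, Tendsto (fun i => g i n) l (𝓝 (g0 n))) (x : X) :
    Tendsto (fun i => s.Phi m (g i) x) l (𝓝 (s.Phi m g0 x)) := by
  classical
  refine m.tendsto_of_e (fun i => s.Phi m (g i)) _ (hg.mono fun i hi => s.norm_Phi m hi)
    (s.norm_Phi m hg0) (fun b => ?_) x
  have e : ∀ g : ℕ → ℂ, Good g B → s.Phi m g (m.e b) =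
      ∑ a ∈ insert b (s.col b).toFinset, s.P g (Pi.single b 1) a • m.e a := by
    intro g hg
    rw [← m.ev_e, ← s.ev_Phi m hg]
    refine m.eq_sum_e _ fun a ha => ?_
    rw [s.ev_Phi m hg, m.ev_e, s.P_single g b a ha]
  rw [e g0 hg0]
  refine (tendsto_finsetSum _ fun a _ => (s.P_tendsto h _ a).smul_const _).congr' ?_
  filter_upwards [hg] with i hi using (e _ hi).symm

/-- The graph of the operator. -/
noncomputable def graph : Submodule ℂ (X × X) where
  carrier := {z | m.ev z.2 = s.P (fun n => dd n) (m.ev z.1)}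
  add_mem' := fun {x y} hx hy => by
    simp only [mem_ofPred_eq, Prod.snd_add, Prod.fst_add, map_add] at *; rw [hx, hy]
  zero_mem' := by simp
  smul_mem' := fun c x hx => by
    simp only [mem_ofPred_eq, Prod.smul_snd, Prod.smul_fst, map_smul] at *; rw [hx]

/-- The operator `A = S⁻¹ D S` on its maximal domain. -/
noncomputable def op : Op X := (s.graph m).toLinearPMap

lemma op_graph : (s.op m).graph = s.graph m :=
  Submodule.toLinearPMap_graph_eq _ fun x hx h0 => m.inj (by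
    have : m.ev x.2 = s.P (fun n => dd n) (m.ev x.1) := hx
    rw [this, h0]; simp)

lemma mem_graph {x y : X} :
    (x, y) ∈ (s.op m).graph ↔ m.ev y = s.P (fun n => dd n) (m.ev x) := by
  rw [op_graph]; rfl

lemma ev_op (x : (s.op m).domain) : m.ev (s.op m x) = s.P (fun n => dd n) (m.ev x) :=
  (s.mem_graph m).1 ((s.op m).mem_graph x)

lemma op_eq {x y : X} (h : m.ev y = s.P (fun n => dd n) (m.ev x)) :
    ∃ hx : x ∈ (s.op m).domain, s.op m ⟨x, hx⟩ = y := by
  have h1 := (s.mem_graph m).2 h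
  exact ⟨LinearPMap.mem_domain_of_mem_graph h1, ((LinearPMap.image_iff _).2 h1).symm⟩

lemma maps_iff {x y : X} : Maps (s.op m) x y ↔ m.ev y = s.P (fun n => dd n) (m.ev x) :=
  ⟨fun ⟨h1, h2⟩ => h2 ▸ s.ev_op m ⟨x, h1⟩, s.op_eq m⟩

lemma op_closed : (s.op m).IsClosed := by
  have : ((s.op m).graph : Set (X × X)) =
      ⋂ a, {z | m.evc a z.2 = s.P (fun n => dd n) (m.ev z.1) a} := by
    ext ⟨x, y⟩
    simp only [SetLike.mem_coe, mem_graph, mem_iInter, mem_ofPred_eq, Model.evc_apply, funext_iff]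
  rw [LinearPMap.IsClosed, this]
  refine isClosed_iInter fun a => isClosed_eq (by fun_prop) ?_
  simp only [P_apply, ← Model.evc_apply]
  fun_prop

lemma op_dense : Dense ((s.op m).domain : Set X) := by
  classical
  refine m.dense_of_e _ fun b => ?_
  obtain ⟨y, hy⟩ := m.exists_of_finite _ (s.P_single (fun n => dd n) b)
  exact (s.op_eq m (by rw [hy, m.ev_e])).1

lemma isResolvent {c : ℝ} (hc : c < 1) (hc' : -1 ≤ c) {l : ℂ} (hl : l.re ≤ c * ‖l‖) :
    IsResolvent (s.op m) l (s.Phi m fun n => (l - dd n)⁻¹) := by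
  have hg := good_res hc hc' hl
  have hne : ∀ n, l - dd n ≠ 0 := fun n => norm_pos_iff.1 (lt_of_lt_of_le
    (mul_pos (kap_pos hc) (by have := dd_pos n; positivity)) (geom hc hc' hl (dd_pos n).le))
  constructor
  · intro x
    obtain ⟨h1, h2⟩ := s.op_eq m (x := s.Phi m (fun n => (l - dd n)⁻¹) x)
      (y := l • s.Phi m (fun n => (l - dd n)⁻¹) x - x) (by
        rw [map_sub, map_smul, s.ev_Phi m hg, P_mul]
        have : (fun n => (dd n : ℂ) * (l - dd n)⁻¹) = fun n => l * (l - dd n)⁻¹ + (-1) * 1 := by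
          funext n; have := hne n; field_simp; ring
        rw [this, P_lin, P_const]; simp [sub_eq_add_neg])
    exact ⟨_, ⟨h1, h2⟩, by simp⟩
  · intro x y hxy
    refine m.inj ?_
    rw [s.ev_Phi m hg, map_sub, map_smul, (s.maps_iff m).1 hxy, map_sub, map_smul, P_mul, ← P_smul,
      sub_eq_add_neg, ← neg_one_smul ℂ, ← one_smul ℂ (s.P _ _), ← P_lin]
    have : (fun n => 1 * (l * (l - dd n)⁻¹) + -1 * ((l - dd n)⁻¹ * dd n)) = fun _ => 1 := by
      funext n; have := hne n; field_simp; ring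
    rw [this, P_const, one_smul]

lemma res_eq {c : ℝ} (hc : c < 1) (hc' : -1 ≤ c) {l : ℂ} (hl : l.re ≤ c * ‖l‖) :
    res (s.op m) l = s.Phi m fun n => (l - dd n)⁻¹ := (s.isResolvent m hc hc' hl).res_eq

lemma sectorBound {ω : ℝ} (hω : 0 < ω) : SectorBound (s.op m) ω := by
  constructor
  · intro l hl
    obtain ⟨c, hc, hc', h⟩ := exists_cos hω
    by_contra h1
    exact hl ⟨_, s.isResolvent m hc hc' (h l fun h2 => h1 (subset_closure h2))⟩
  · intro ε hε
    obtain ⟨c, hc, hc', h⟩ := exists_cos (add_pos hω hε)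
    refine ⟨(1 + s.C0) * (kap c ^ 2)⁻¹, fun l hl => ?_⟩
    have h1 := h l fun h2 => hl (subset_closure h2)
    have h2 := s.norm_Phi m (good_res hc hc' h1)
    have := s.C0_nonneg
    have := kap_pos hc
    have := norm_nonneg l
    rw [s.res_eq m hc hc' h1, norm_smul]
    calc ‖l‖ * _ ≤ (‖l‖ + 1) * ((1 + s.C0) * ((kap c ^ 2)⁻¹ * (‖l‖ + 1)⁻¹)) := by
          gcongr; linarith
      _ = _ := by field_simp

lemma zero_notMem_spec : (0 : ℂ) ∉ spec (s.op m) := fun h =>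
  h ⟨_, s.isResolvent m (c := 0) one_pos (by norm_num) (by simp)⟩

lemma sectorial : Sectorial (s.op m) := by
  refine ⟨s.op_closed m, s.op_dense m, ?_, 1, ⟨one_pos, by linarith [Real.pi_gt_three]⟩,
    s.sectorBound m one_pos⟩
  refine Dense.mono (fun x _ => ?_) dense_univ
  obtain ⟨y, h1, h2⟩ := (s.isResolvent m (c := 0) (l := 0) one_pos (by norm_num) (by simp)).1 x
  rw [zero_smul, zero_sub] at h2
  refine ⟨-(s.Phi m (fun n => ((0 : ℂ) - dd n)⁻¹) x), (s.maps_iff m).2 ?_⟩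
  rw [map_neg, map_neg, ← (s.maps_iff m).1 h1, ← map_neg, h2]

lemma angle_eq : angle (s.op m) = 0 := by
  have : {ω ∈ Ioo 0 Real.pi | SectorBound (s.op m) ω} = Ioo 0 Real.pi := by
    ext ω
    exact ⟨fun h => h.1, fun h => ⟨h, s.sectorBound m h.1⟩⟩
  rw [angle, this, csInf_Ioo Real.pi_pos]

lemma good_exp' {t : ℝ} (ht : 0 ≤ t) : Good (fun n => (Real.exp (-(t * dd n)) : ℂ)) 1 :=
  good_of_antitone (φ := fun n => Real.exp (-(t * dd n)))
    (fun a b h => by have := dd_mono h; dsimp only; gcongr) (fun n => (Real.exp_pos _).le)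
    (fun n => Real.exp_le_one_iff.2 (by have := dd_pos n; nlinarith))

/-- The semigroup `e^{-tA}`. -/
noncomputable def T (t : ℝ) : X →L[ℂ] X := s.Phi m fun n => (Real.exp (-(t * dd n)) : ℂ)

lemma ev_T {t : ℝ} (ht : 0 ≤ t) (x : X) :
    m.ev (s.T m t x) = s.P (fun n => (Real.exp (-(t * dd n)) : ℂ)) (m.ev x) :=
  s.ev_Phi m (good_exp' ht) x

lemma norm_T {t : ℝ} (ht : 0 ≤ t) : ‖s.T m t‖ ≤ 1 + s.C0 := by
  have := s.norm_Phi m (good_exp' ht)
  rwa [mul_one] at this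

lemma Phi_one : s.Phi m (fun _ => 1) = 1 := s.Phi_eq m fun x => by simp [P_const]

lemma T_pos {t : ℝ} (ht : 0 ≤ t) (x : X) (hx : ∀ a, 0 ≤ (m.ev x a).re ∧ (m.ev x a).im = 0)
    (a : ι) : 0 ≤ (m.ev (s.T m t x) a).re ∧ (m.ev (s.T m t x) a).im = 0 := by
  rw [s.ev_T m ht, P_apply]
  simp only [← ofReal_sub, ← ofReal_mul, add_re, add_im, re_sum, im_sum, re_ofReal_mul,
    im_ofReal_mul, fun a => (hx a).2, mul_zero, Finset.sum_const_zero, add_zero, and_true]
  refine add_nonneg (mul_nonneg (Real.exp_pos _).le (hx a).1)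
    (Finset.sum_nonneg fun k hk => mul_nonneg ?_ (hx _).1)
  have anti : Antitone fun n => Real.exp (-(t * dd n)) := fun a b h => by
    have := dd_mono h; dsimp only; gcongr
  exact mul_nonneg (s.c_nonneg a k) (sub_nonneg.2 (anti (s.lo_le a k hk)))

lemma hasDeriv_aux (d : ℝ) :
    Tendsto (fun t : ℝ => t⁻¹ * (Real.exp (-(t * d)) - 1)) (𝓝[>] 0) (𝓝 (-d)) := by
  have h : HasDerivAt (fun t : ℝ => Real.exp (-(t * d))) (-d) 0 := by
    simpa using ((hasDerivAt_id (0 : ℝ)).mul_const d).neg.exp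
  simpa using h.tendsto_slope_zero_right

lemma isC0Generator : IsC0Generator (s.T m) (-s.op m) := by
  have hgraph : ∀ x y : X, Maps (-s.op m) x y ↔
      m.ev y = -s.P (fun n => dd n) (m.ev x) := by
    intro x y
    constructor
    · rintro ⟨h1, h2⟩
      rw [← h2, LinearPMap.neg_apply, map_neg]
      exact congrArg _ (s.ev_op m ⟨x, h1⟩)
    · intro h
      obtain ⟨h1, h2⟩ := s.op_eq m (x := x) (y := -y) (by rw [map_neg, h, neg_neg])
      refine ⟨h1, ?_⟩
      rw [LinearPMap.neg_apply]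
      exact neg_eq_iff_eq_neg.2 h2
  have hq : ∀ t : ℝ, 0 < t → ∀ x : X, m.ev ((t : ℂ)⁻¹ • (s.T m t x - x)) =
      s.P (fun n => ((t⁻¹ * (Real.exp (-(t * dd n)) - 1) : ℝ) : ℂ)) (m.ev x) := by
    intro t ht x
    rw [map_smul, map_sub, s.ev_T m ht.le]
    have : (fun n => ((t⁻¹ * (Real.exp (-(t * dd n)) - 1) : ℝ) : ℂ)) =
        fun n => (t : ℂ)⁻¹ * (Real.exp (-(t * dd n)) : ℂ) + (-(t : ℂ)⁻¹) * 1 := by
      funext n; rw [ofReal_mul, ofReal_sub, ofReal_inv, ofReal_one]; ring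
    rw [this, P_lin, P_const, one_smul, smul_sub, neg_smul, sub_eq_add_neg]
  refine ⟨?_, fun u t hu ht => ?_, fun x t ht => ?_, fun x y => ?_⟩
  · simpa [T] using s.Phi_one m
  · refine s.Phi_eq m fun x => ?_
    rw [mul_apply_eq_comp, s.ev_T m hu, s.ev_T m ht, P_mul]
    congr 2
    funext n
    rw [← ofReal_mul, ← Real.exp_add]; congr 2; ring
  · refine s.Phi_tendsto m (B := 1) ?_ (good_exp' ht) (fun n => ?_) x
    · filter_upwards [self_mem_nhdsWithin] with u hu using good_exp' hu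
    · refine tendsto_nhdsWithin_of_tendsto_nhds (Continuous.tendsto ?_ t)
      fun_prop
  · rw [hgraph]
    constructor
    · intro h
      have hg : ∀ t : ℝ, 0 < t →
          Good (fun n => (((1 - Real.exp (-(t * dd n))) / (t * dd n) : ℝ) : ℂ)) 1 := by
        intro t ht
        have hp : ∀ n, 0 < t * dd n := fun n => mul_pos ht (dd_pos n)
        refine good_of_antitone (φ := fun n => (1 - Real.exp (-(t * dd n))) / (t * dd n))
          (fun a b h => antitone_slope (hp a) (by have := dd_mono h; gcongr)) (fun n => ?_)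
          (fun n => ?_)
        · exact div_nonneg (sub_nonneg.2 (Real.exp_le_one_iff.2 (by linarith [hp n]))) (hp n).le
        · rw [div_le_one (hp n)]
          linarith [Real.add_one_le_exp (-(t * dd n))]
      have h1 := s.Phi_tendsto m (l := 𝓝[>] (0 : ℝ)) (B := 1) (g0 := fun _ => 1)
        (g := fun t n => (((1 - Real.exp (-(t * dd n))) / (t * dd n) : ℝ) : ℂ))
        (by filter_upwards [self_mem_nhdsWithin] with t ht using hg t ht)
        (by simpa using good_exp' (t := 0) le_rfl) (fun n => by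
          have h2 := (hasDeriv_aux (dd n)).mul_const (-(dd n)⁻¹)
          have h3 : -dd n * -(dd n)⁻¹ = 1 := by have := dd_pos n; field_simp
          rw [h3] at h2
          rw [← ofReal_one]
          refine (continuous_ofReal.tendsto _).comp (h2.congr fun t => ?_)
          rw [div_eq_mul_inv, mul_inv]; ring) y
      rw [Phi_one] at h1
      refine h1.congr' ?_
      filter_upwards [self_mem_nhdsWithin] with t ht
      refine m.inj ?_
      rw [s.ev_Phi m (hg t ht), hq t ht, h, map_neg, P_mul, ← neg_one_smul ℂ, ← P_smul]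
      congr 2
      funext n
      have h1 : (t : ℂ) ≠ 0 := by exact_mod_cast ht.out.ne'
      have h2 : (dd n : ℂ) ≠ 0 := by exact_mod_cast (dd_pos n).ne'
      rw [ofReal_mul, ofReal_div, ofReal_mul, ofReal_sub, ofReal_sub, ofReal_inv, ofReal_one]
      field_simp
      ring
    · intro h
      funext a
      have h1 := ((m.evc a).continuous.tendsto y).comp h
      have h2 := s.P_tendsto (l := 𝓝[>] (0 : ℝ)) (g0 := fun n => (-1 : ℂ) * dd n)
        (g := fun t n => ((t⁻¹ * (Real.exp (-(t * dd n)) - 1) : ℝ) : ℂ)) (fun n => by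
          have := (continuous_ofReal.tendsto _).comp (hasDeriv_aux (dd n))
          rwa [ofReal_neg, ← neg_one_mul] at this) (m.ev x) a
      rw [P_smul, neg_one_smul] at h2
      refine tendsto_nhds_unique h1 (h2.congr' ?_)
      filter_upwards [self_mem_nhdsWithin] with t ht
      rw [← hq t ht]; rfl

lemma ray_re {φ r : ℝ} (hr : 0 ≤ r) :
    ((r : ℂ) * exp (φ * I)).re ≤ |Real.cos φ| * ‖(r : ℂ) * exp (φ * I)‖ := by
  rw [re_ray, norm_ray r φ hr, mul_comm]
  exact mul_le_mul_of_nonneg_right (le_abs_self _) hr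

lemma integrable_res {σ φ : ℝ} (hσ : σ ≤ Real.pi) (h0 : 0 < |φ|) (hφ : |φ| < σ)
    {f : ℂ → ℂ} (hf : H0 σ f) : IntegrableOn (fun r : ℝ =>
      (f (r * exp (φ * I)) * exp (φ * I)) • res (s.op m) (r * exp (φ * I))) (Ioi 0) := by
  have h1 : |φ| < Real.pi := by linarith
  have hc := abs_cos_lt_one h0 h1
  have hc' : -1 ≤ |Real.cos φ| := by linarith [abs_nonneg (Real.cos φ)]
  have hk := kap_pos hc
  have hC := s.C0_nonneg
  set D := (1 + s.C0) * (kap |Real.cos φ| ^ 2)⁻¹ with hD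
  have hb : ∀ r : ℝ, 0 < r → ‖res (s.op m) (r * exp (φ * I))‖ ≤ D * (r + 1)⁻¹ := by
    intro r hr
    have := s.norm_Phi m (good_res hc hc' (ray_re (φ := φ) hr.le))
    rw [norm_ray r φ hr.le, ← mul_assoc] at this
    rwa [s.res_eq m hc hc' (ray_re hr.le)]
  have hb' : ∀ r : ℝ, 0 < r → ‖res (s.op m) (r * exp (φ * I))‖ ≤ D := fun r hr =>
    (hb r hr).trans (mul_le_of_le_one_right (by positivity) (inv_le_one_of_one_le₀ (by linarith)))
  refine integrable_ray_smul hσ hφ hf (R := fun r : ℝ => res (s.op m) (r * exp (φ * I))) ?_ hb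
  refine LipschitzOnWith.continuousOn (K := ⟨D * D, by positivity⟩)
    (LipschitzOnWith.of_dist_le_mul fun r hr u hu => ?_)
  have e : res (s.op m) (r * exp (φ * I)) - res (s.op m) (u * exp (φ * I)) =
      (((u - r : ℝ) : ℂ) * exp (φ * I)) •
        (res (s.op m) (r * exp (φ * I)) * res (s.op m) (u * exp (φ * I))) := by
    have gr := good_res hc hc' (ray_re (φ := φ) hr.out.le)
    have gu := good_res hc hc' (ray_re (φ := φ) hu.out.le)
    rw [s.res_eq m hc hc' (ray_re hr.out.le), s.res_eq m hc hc' (ray_re hu.out.le)]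
    ext x
    refine m.inj ?_
    rw [sub_apply, smul_apply,
      mul_apply_eq_comp, map_sub, map_smul, s.ev_Phi m gr, s.ev_Phi m gr,
      s.ev_Phi m gu, P_mul, ← P_smul, ← P_sub]
    congr 2
    funext n
    have := dd_pos n
    have := hr.out
    have := hu.out
    have n1 : (r : ℂ) * exp (φ * I) - dd n ≠ 0 := norm_pos_iff.1
      (lt_of_lt_of_le (by positivity) (ray_sub h0 h1 hr.out.le (dd_pos n).le))
    have n2 : (u : ℂ) * exp (φ * I) - dd n ≠ 0 := norm_pos_iff.1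
      (lt_of_lt_of_le (by positivity) (ray_sub h0 h1 hu.out.le (dd_pos n).le))
    push_cast
    generalize exp (φ * I) = w at n1 n2 ⊢
    rw [inv_sub_inv n1 n2, div_eq_mul_inv, mul_inv]
    ring
  rw [dist_eq_norm, e, norm_smul, norm_mul, norm_exp_ofReal_mul_I, mul_one, norm_real,
    Real.dist_eq, Real.norm_eq_abs, abs_sub_comm, mul_comm]
  refine mul_le_mul_of_nonneg_right ((norm_mul_le _ _).trans ?_) (abs_nonneg _)
  exact mul_le_mul (hb' r hr) (hb' u hu) (norm_nonneg _) (by positivity)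

variable [CompleteSpace X]

lemma ev_integral {σ φ : ℝ} (hσ : σ ≤ Real.pi) (h0 : 0 < |φ|) (hφ : |φ| < σ)
    {f : ℂ → ℂ} (hf : H0 σ f) (x : X) :
    m.ev ((∫ r in Ioi (0 : ℝ),
      (f (r * exp (φ * I)) * exp (φ * I)) • res (s.op m) (r * exp (φ * I))) x) =
    s.P (fun n => ∫ r in Ioi (0 : ℝ),
      (f (r * exp (φ * I)) * exp (φ * I)) * (r * exp (φ * I) - dd n)⁻¹) (m.ev x) := by
  have h1 : |φ| < Real.pi := by linarith
  have hc := abs_cos_lt_one h0 h1
  have hc' : -1 ≤ |Real.cos φ| := by linarith [abs_nonneg (Real.cos φ)]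
  funext a
  rw [← s.P_integral (fun n => scalar_integrable hσ h0 hφ hf (one_le_dd n))]
  let L : (X →L[ℂ] X) →L[ℂ] ℂ := (m.evc a) ∘L (ContinuousLinearMap.apply ℂ X x)
  have := L.integral_comp_comm (s.integrable_res m hσ h0 hφ hf)
  refine this.symm.trans (setIntegral_congr_fun measurableSet_Ioi fun r hr => ?_)
  rw [map_smul, P_smul, s.res_eq m hc hc' (ray_re hr.out.le),
    ← s.ev_Phi m (good_res hc hc' (ray_re (φ := φ) hr.out.le))]
  rfl

lemma ev_funCalc {σ θ : ℝ} (hσ : σ ≤ Real.pi) (h0 : 0 < θ) (hθ : θ < σ)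
    {f : ℂ → ℂ} (hf : H0 σ f) (x : X) :
    m.ev (funCalc (s.op m) θ f x) = s.P (fun n => f (dd n)) (m.ev x) := by
  have hm : |(-θ)| = θ := by rw [abs_neg, abs_of_pos h0]
  have hp : |θ| = θ := abs_of_pos h0
  have e1 := s.ev_integral m (φ := -θ) hσ (by rwa [hm]) (by rwa [hm]) hf x
  have e2 := s.ev_integral m (φ := θ) hσ (by rwa [hp]) (by rwa [hp]) hf x
  have e3 := fun n => cauchy_sector hσ h0 hθ hf (one_le_dd n)
  simp only [ofReal_neg] at e1 e3
  rw [funCalc, rayInt, rayInt, smul_apply, sub_apply, map_smul, map_sub,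
    e1, e2, ← P_sub, ← P_smul]
  congr 2
  funext n
  rw [e3 n]
  have : (2 * Real.pi * I : ℂ) ≠ 0 := two_pi_I_ne_zero
  field_simp

/-- Sign-alternating functions of the level do not act boundedly. -/
def Unb : Prop := ∀ C : ℝ, ∃ (L : ℕ) (x : X), ∀ (ρ : ℕ → ℝ) (y : X), (∀ n ≤ L, 1 / 4 ≤ ρ n) →
  m.ev y = s.P (fun n => ρ n * (-1) ^ n) (m.ev x) → C * ‖x‖ < ‖y‖

lemma not_boundedHinfty (h : s.Unb m) : ¬ BoundedHinfty (s.op m) := by
  rintro ⟨σ, ⟨h1, h2⟩, θ, ⟨h3, h4⟩, C, hC⟩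
  rw [angle_eq] at h1 h3
  obtain ⟨B, hB⟩ := H0_test h1.le h2 (w := fun z => z ^ I)
    (fun z hz => ((hasStrictDerivAt_cpow_const (c := I)
      (sector_subset_slitPlane h2.le hz)).hasDerivAt.differentiableAt).differentiableWithinAt)
    (Real.exp_pos Real.pi) (fun z _ => norm_cpow_I_le z)
  obtain ⟨L, x, hx⟩ := h (C * B)
  obtain ⟨hf, hb⟩ := hB (dd L) (one_le_dd L)
  have e := s.ev_funCalc m h2.le h3 h4 hf x
  have := hx (fun n => dd n / (1 + dd n) * (dd L / (dd L + dd n))) _ (fun n hn => by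
    have h5 := one_le_dd n
    have h6 := dd_mono hn
    have h7 : 1 / 2 ≤ dd n / (1 + dd n) := by rw [div_le_div_iff₀ (by norm_num) (by linarith)]; linarith
    have h8 : 1 / 2 ≤ dd L / (dd L + dd n) := by
      rw [div_le_div_iff₀ (by norm_num) (by linarith)]; linarith
    nlinarith) (by rw [e]; simp only [dd_cpow]; push_cast; rfl)
  exact absurd this (not_lt.2 (((funCalc _ _ _).le_opNorm x).trans
    (mul_le_mul_of_nonneg_right (hC _ hf B hb) (norm_nonneg _))))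

lemma not_BIP (h : s.Unb m) : ¬ BIP (s.op m) := by
  rintro ⟨θ, ⟨h1, h2⟩, U, hU, -⟩
  rw [angle_eq] at h1
  have h3 : (θ + Real.pi) / 2 < Real.pi := by linarith
  have h4 : 0 ≤ (θ + Real.pi) / 2 := by linarith
  obtain ⟨_, hB1⟩ := H0_test h4 h3 (w := fun z => z ^ I)
    (fun z hz => ((hasStrictDerivAt_cpow_const (c := I)
      (sector_subset_slitPlane h3.le hz)).hasDerivAt.differentiableAt).differentiableWithinAt)
    (Real.exp_pos Real.pi) (fun z _ => norm_cpow_I_le z)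
  obtain ⟨_, hB2⟩ := H0_test h4 h3 (w := fun _ => 1) (by fun_prop) one_pos (fun z _ => by simp)
  have f1 : (fun z : ℂ => z / (1 + z) ^ 2 * z ^ (I * (1 : ℝ))) =
      fun z : ℂ => z / (1 + z) * ((1 : ℝ) / ((1 : ℝ) + z)) * z ^ I := by
    funext z; rw [ofReal_one, mul_one, div_mul_div_comm, mul_one, sq]
  have f2 : (fun z : ℂ => z / (1 + z) ^ 2) =
      fun z : ℂ => z / (1 + z) * ((1 : ℝ) / ((1 : ℝ) + z)) * 1 := by
    funext z; rw [ofReal_one, mul_one, div_mul_div_comm, mul_one, sq]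
  have hU1 := hU 1
  rw [f1, f2] at hU1
  obtain ⟨L, x, hx⟩ := h ‖U 1‖
  refine absurd (hx (fun _ => 1) (U 1 x) (fun _ _ => by norm_num) ?_)
    (not_lt.2 ((U 1).le_opNorm x))
  have e := congrArg (fun V : X →L[ℂ] X => s.P (fun n => (1 + dd n) ^ 2 / dd n) (m.ev (V x))) hU1
  simp only [ContinuousLinearMap.comp_apply] at e
  rw [s.ev_funCalc m h3.le h1 (by linarith) (hB2 1 le_rfl).1,
    s.ev_funCalc m h3.le h1 (by linarith) (hB1 1 le_rfl).1, P_mul, P_mul] at e
  have n1 : ∀ n, (dd n : ℂ) ≠ 0 := fun n => by exact_mod_cast (dd_pos n).ne'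
  have n2 : ∀ n, (1 + dd n : ℂ) ≠ 0 := fun n => by
    exact_mod_cast (by linarith [dd_pos n] : 1 + dd n ≠ 0)
  have g1 : (fun n => (1 + dd n : ℂ) ^ 2 / dd n *
      (dd n / (1 + dd n) * ((1 : ℝ) / ((1 : ℝ) + dd n)) * 1)) = fun _ => 1 := by
    funext n; have := n1 n; have := n2 n; push_cast; field_simp
  have g2 : (fun n => (1 + dd n : ℂ) ^ 2 / dd n *
      (dd n / (1 + dd n) * ((1 : ℝ) / ((1 : ℝ) + dd n)) * (dd n : ℂ) ^ I)) =
      fun n : ℕ => ((1 : ℝ) : ℂ) * (-1 : ℂ) ^ n := by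
    funext n; have := n1 n; have := n2 n; rw [dd_cpow]; push_cast; field_simp
  rwa [g1, g2, P_const, one_smul] at e

/-- The resolvents on the negative axis are not R-bounded. -/
def UnR : Prop := ∀ C : ℝ, ∃ (n : ℕ) (t : Fin n → ℝ) (x : Fin n → X), (∀ k, 0 < t k) ∧
  ∀ y : Fin n → X, (∀ k, m.ev (y k) = s.P (fun l => ((t k / (t k + dd l) : ℝ) : ℂ)) (m.ev (x k))) →
    C * radNorm x < radNorm y

omit [CompleteSpace X] in
lemma not_RSectorial (h : s.UnR m) : ¬ RSectorial (s.op m) := by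
  rintro ⟨ω, ⟨h1, h2⟩, C, hC⟩
  rw [angle_eq] at h1
  obtain ⟨n, t, x, ht, hx⟩ := h C
  refine absurd (hx _ fun k => ?_) (not_lt.2 (hC n
    (fun k => ((-t k : ℝ) : ℂ) • res (s.op m) (-t k : ℝ)) x
    fun k => ⟨_, neg_notMem_closure h1.le h2 (ht k), rfl⟩))
  have hl : ((-t k : ℝ) : ℂ).re ≤ 0 * ‖((-t k : ℝ) : ℂ)‖ := by simp [(ht k).le]
  rw [s.res_eq m one_pos (by norm_num) hl, smul_apply, map_smul,
    s.ev_Phi m (good_res one_pos (by norm_num) hl), ← P_smul]
  congr 2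
  funext l
  push_cast
  rw [← neg_add', inv_neg, neg_mul_neg, div_eq_mul_inv]

end Sys2

end Pool.Agent.MP_a83649_an.WS
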