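import Mathlib.Analysis.SpecialFunctions.Trigonometric.Series
import Pool.Agent.MP_a83649_an.Example

/-! Khintchine's inequalities for the sign patterns `sgn`, and the comparison of Rademacher
averages in `ℓ_q` with square functions. -/

open Filter Topology Finset

namespace Pool.Agent.MP_a83649_an.WS

lemma sum_two (G : ℕ → ℝ) (H : ℝ → ℝ) (N : ℕ) :
    ∑ m ∈ range (2 * N), G (m / 2) * H ((-1) ^ m) = (∑ m ∈ range N, G m) * (H 1 + H (-1)) := by
  induction N with
  | zero => simp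
  | succ N ih =>
    rw [Nat.mul_succ, sum_range_succ, sum_range_succ, ih, sum_range_succ]
    have e1 : 2 * N / 2 = N := by omega
    have e2 : (2 * N + 1) / 2 = N := by omega
    rw [e1, e2, pow_succ, pow_mul]
    simp only [even_two, Even.neg_pow, one_pow, one_mul]
    ring

lemma prod_sgn (n : ℕ) (h : Fin n → ℝ → ℝ) :
    ∑ m ∈ range (2 ^ n), ∏ k, h k (sgn n k m) = ∏ k, (h k 1 + h k (-1)) := by
  induction n with
  | zero => simp
  | succ n ih =>
    rw [Fin.prod_univ_castSucc, ← ih, pow_succ', ← sum_two]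
    refine sum_congr rfl fun m _ => ?_
    rw [Fin.prod_univ_castSucc]
    congr 1
    · refine prod_congr rfl fun k _ => ?_
      congr 1
      unfold sgn
      have hk := k.2
      have : n + 1 - ((k.castSucc : ℕ) + 1) = (n - (k + 1)) + 1 := by
        rw [Fin.val_castSucc]; omega
      rw [this, pow_succ', ← Nat.div_div_eq_div_mul]
    · simp [sgn]

lemma mgf_le (n : ℕ) (c : Fin n → ℝ) (hc : ∑ k, c k ^ 2 ≤ 1) :
    ∑ m ∈ range (2 ^ n), Real.exp (∑ k, sgn n k m * c k) ≤ ((2 ^ n : ℕ) : ℝ) * 2 := by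
  simp only [Real.exp_sum]
  rw [prod_sgn n fun k v => Real.exp (v * c k)]
  calc ∏ k, (Real.exp (1 * c k) + Real.exp (-1 * c k))
      ≤ ∏ k : Fin n, 2 * Real.exp (c k ^ 2 / 2) := by
        refine prod_le_prod (fun _ _ => by positivity) fun k _ => ?_
        have := Real.cosh_le_exp_half_sq (c k)
        rw [Real.cosh_eq] at this
        rw [one_mul, neg_one_mul]
        linarith
    _ = 2 ^ n * Real.exp ((∑ k, c k ^ 2) / 2) := by
        rw [prod_mul_distrib, ← Real.exp_sum, sum_div]; simp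
    _ ≤ _ := by
        push_cast
        gcongr
        calc Real.exp ((∑ k, c k ^ 2) / 2) ≤ Real.exp (1 / 2) := by gcongr
          _ ≤ 2 := by
            have h1 : Real.exp (1 / 2) * Real.exp (-(1 / 2)) = 1 := by
              rw [← Real.exp_add]; norm_num
            nlinarith [Real.add_one_le_exp (-(1 / 2)), Real.exp_pos (1 / 2)]

lemma rpow_le_exp {t : ℝ} (ht : 0 < t) :
    ∃ C : ℝ, 0 < C ∧ ∀ v : ℝ, |v| ^ t ≤ C * (Real.exp v + Real.exp (-v)) := by
  refine ⟨(⌈t⌉₊).factorial, by positivity, fun v => ?_⟩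
  have h1 : Real.exp |v| ≤ Real.exp v + Real.exp (-v) := by
    rcases abs_choice v with h | h <;> rw [h] <;> linarith [Real.exp_pos v, Real.exp_pos (-v)]
  have h2 : (1 : ℝ) ≤ (⌈t⌉₊).factorial := by exact_mod_cast Nat.factorial_pos _
  have h3 : 1 ≤ Real.exp |v| := Real.one_le_exp (abs_nonneg v)
  refine le_trans ?_ (mul_le_mul_of_nonneg_left h1 (by positivity))
  rcases le_total |v| 1 with h | h
  · exact (Real.rpow_le_one (abs_nonneg v) h ht.le).trans (by nlinarith)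
  · have h4 := Real.pow_div_factorial_le_exp |v| (abs_nonneg v) ⌈t⌉₊
    rw [div_le_iff₀' (by positivity)] at h4
    refine le_trans ?_ h4
    rw [← Real.rpow_natCast]
    exact Real.rpow_le_rpow_of_exponent_le h (Nat.le_ceil t)

lemma khin_real {t : ℝ} (ht : 0 < t) : ∃ C : ℝ, 0 < C ∧ ∀ (n : ℕ) (z : Fin n → ℝ) (s : ℝ),
    0 ≤ s → ∑ k, z k ^ 2 ≤ s ^ 2 →
    ∑ m ∈ range (2 ^ n), |∑ k, sgn n k m * z k| ^ t ≤ ((2 ^ n : ℕ) : ℝ) * (C * s ^ t) := by
  obtain ⟨C, hC, h⟩ := rpow_le_exp ht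
  refine ⟨4 * C, by positivity, fun n z s hs hz => ?_⟩
  rcases hs.eq_or_lt with rfl | hs
  · have : ∀ k, z k = 0 := fun k => by
      have := single_le_sum (f := fun k => z k ^ 2) (fun _ _ => sq_nonneg _) (mem_univ k)
      nlinarith [sq_nonneg (z k)]
    simp [this, Real.zero_rpow ht.ne']
  have h1 : ∑ k, (z k / s) ^ 2 ≤ 1 := by
    simp only [div_pow]
    rw [← sum_div, div_le_one (by positivity)]; exact hz
  have h2 := mgf_le n _ h1
  have h3 := mgf_le n (fun k => -(z k / s)) (by simpa using h1)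
  calc ∑ m ∈ range (2 ^ n), |∑ k, sgn n k m * z k| ^ t
      ≤ ∑ m ∈ range (2 ^ n), s ^ t * C * (Real.exp (∑ k, sgn n k m * (z k / s)) +
          Real.exp (∑ k, sgn n k m * -(z k / s))) := by
        refine sum_le_sum fun m _ => ?_
        have e : ∑ k, sgn n k m * z k = s * ∑ k, sgn n k m * (z k / s) := by
          rw [mul_sum]; exact sum_congr rfl fun k _ => by field_simp
        have e2 : ∑ k, sgn n k m * -(z k / s) = -∑ k, sgn n k m * (z k / s) := by
          simp [sum_neg_distrib]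
        rw [e, e2, abs_mul, abs_of_pos hs, Real.mul_rpow hs.le (abs_nonneg _), mul_assoc]
        gcongr
        exact h _
    _ ≤ s ^ t * C * (((2 ^ n : ℕ) : ℝ) * 2 + ((2 ^ n : ℕ) : ℝ) * 2) := by
        rw [← mul_sum, sum_add_distrib]
        gcongr
    _ = _ := by ring

lemma khin_upper {t : ℝ} (ht : 0 < t) : ∃ C : ℝ, 0 < C ∧ ∀ (n : ℕ) (z : Fin n → ℂ),
    ∑ m ∈ range (2 ^ n), ‖∑ k, (sgn n k m : ℂ) * z k‖ ^ t ≤
      ((2 ^ n : ℕ) : ℝ) * (C * (∑ k, ‖z k‖ ^ 2) ^ (t / 2)) := by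
  obtain ⟨C, hC, h⟩ := khin_real ht
  refine ⟨2 ^ t * (2 * C), by positivity, fun n z => ?_⟩
  have h0 : 0 ≤ ∑ k, ‖z k‖ ^ 2 := by positivity
  have h1 := h n (fun k => (z k).re) _ (Real.sqrt_nonneg _) (by
    rw [Real.sq_sqrt h0]
    exact sum_le_sum fun k _ => sq_le_sq.2 (by simpa using Complex.abs_re_le_norm (z k)))
  have h2 := h n (fun k => (z k).im) _ (Real.sqrt_nonneg _) (by
    rw [Real.sq_sqrt h0]
    exact sum_le_sum fun k _ => sq_le_sq.2 (by simpa using Complex.abs_im_le_norm (z k)))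
  rw [Real.sqrt_eq_rpow, ← Real.rpow_mul h0, show 1 / 2 * t = t / 2 by ring] at h1 h2
  calc ∑ m ∈ range (2 ^ n), ‖∑ k, (sgn n k m : ℂ) * z k‖ ^ t
      ≤ ∑ m ∈ range (2 ^ n), 2 ^ t * (|∑ k, sgn n k m * (z k).re| ^ t +
          |∑ k, sgn n k m * (z k).im| ^ t) := by
        refine sum_le_sum fun m _ => ?_
        have e := Complex.norm_le_abs_re_add_abs_im (∑ k, (sgn n k m : ℂ) * z k)
        simp only [Complex.re_sum, Complex.im_sum, Complex.re_ofReal_mul,
          Complex.im_ofReal_mul] at e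
        set u := |∑ k, sgn n k m * (z k).re|
        set v := |∑ k, sgn n k m * (z k).im|
        have hu : 0 ≤ u := abs_nonneg _
        have hv : 0 ≤ v := abs_nonneg _
        have hu' := Real.rpow_nonneg hu t
        have hv' := Real.rpow_nonneg hv t
        have h2t : (0 : ℝ) < 2 ^ t := by positivity
        rcases le_total u v with huv | huv
        · calc _ ≤ (2 * v) ^ t := Real.rpow_le_rpow (norm_nonneg _) (by linarith) ht.le
            _ = 2 ^ t * v ^ t := Real.mul_rpow zero_le_two hv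
            _ ≤ _ := by gcongr; linarith
        · calc _ ≤ (2 * u) ^ t := Real.rpow_le_rpow (norm_nonneg _) (by linarith) ht.le
            _ = 2 ^ t * u ^ t := Real.mul_rpow zero_le_two hu
            _ ≤ _ := by gcongr; linarith
    _ ≤ 2 ^ t * (((2 ^ n : ℕ) : ℝ) * (C * (∑ k, ‖z k‖ ^ 2) ^ (t / 2)) +
          ((2 ^ n : ℕ) : ℝ) * (C * (∑ k, ‖z k‖ ^ 2) ^ (t / 2))) := by
        rw [← mul_sum, sum_add_distrib]
        gcongr
    _ = _ := by ring

lemma khin_lower {t : ℝ} (ht : 0 < t) (ht2 : t ≤ 2) : ∃ C : ℝ, 0 < C ∧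
    ∀ (n : ℕ) (z : Fin n → ℂ), ((2 ^ n : ℕ) : ℝ) * (∑ k, ‖z k‖ ^ 2) ^ (t / 2) ≤
      C * ∑ m ∈ range (2 ^ n), ‖∑ k, (sgn n k m : ℂ) * z k‖ ^ t := by
  obtain ⟨C, hC, h⟩ := khin_upper (t := 4) (by norm_num)
  refine ⟨2 * (2 * C) ^ (1 - t / 2), by positivity, fun n z => ?_⟩
  have h0 : 0 ≤ ∑ k, ‖z k‖ ^ 2 := by positivity
  rcases h0.eq_or_lt with h0 | h0
  · rw [← h0, Real.zero_rpow (by linarith), mul_zero]; positivity
  have h1 := h n z
  have h2 := sum_sgn_sq n z
  set s := ∑ k, ‖z k‖ ^ 2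
  set N : ℝ := ((2 ^ n : ℕ) : ℝ)
  have hN : 0 < N := by positivity
  have hL : 0 < 2 * C * s := by positivity
  have h3 : ∀ u : ℝ, 0 ≤ u → u ^ 2 ≤ (2 * C * s) ^ (1 - t / 2) * u ^ t + u ^ (4 : ℝ) / (2 * C * s) := by
    intro u hu
    have e4 : u ^ (4 : ℝ) = u ^ 2 * u ^ 2 := by
      rw [show (4 : ℝ) = (4 : ℕ) by norm_num, Real.rpow_natCast]; ring
    rcases le_total (u ^ 2) (2 * C * s) with h4 | h4
    · have e : u ^ 2 = (u ^ 2) ^ (1 - t / 2) * u ^ t := by
        rw [← Real.rpow_natCast, ← Real.rpow_mul hu, ← Real.rpow_add' hu (by push_cast; linarith)]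
        congr 1; push_cast; ring
      have : (u ^ 2) ^ (1 - t / 2) * u ^ t ≤ (2 * C * s) ^ (1 - t / 2) * u ^ t := by
        gcongr; linarith
      have : 0 ≤ u ^ (4 : ℝ) / (2 * C * s) := by positivity
      linarith
    · have : u ^ 2 ≤ u ^ (4 : ℝ) / (2 * C * s) := by
        rw [le_div_iff₀ hL, e4]; gcongr
      have : 0 ≤ (2 * C * s) ^ (1 - t / 2) * u ^ t := by positivity
      linarith
  have h4 : N * s ≤ (2 * C * s) ^ (1 - t / 2) *
      ∑ m ∈ range (2 ^ n), ‖∑ k, (sgn n k m : ℂ) * z k‖ ^ t + N * s / 2 := by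
    rw [← h2]
    refine (sum_le_sum fun m _ => h3 _ (norm_nonneg _)).trans ?_
    rw [sum_add_distrib, ← mul_sum, ← sum_div, h2]
    refine add_le_add le_rfl ?_
    rw [div_le_iff₀ hL]
    refine h1.trans (le_of_eq ?_)
    rw [show (4 : ℝ) / 2 = (2 : ℕ) by norm_num, Real.rpow_natCast]; ring
  have e : s = s ^ (1 - t / 2) * s ^ (t / 2) := by
    rw [← Real.rpow_add h0]; simp
  rw [Real.mul_rpow (by positivity) h0.le] at h4
  have h5 : 0 < s ^ (1 - t / 2) := by positivity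
  refine le_of_mul_le_mul_left ?_ h5
  calc s ^ (1 - t / 2) * (N * s ^ (t / 2)) = N * (s ^ (1 - t / 2) * s ^ (t / 2)) := by ring
    _ = N * s := by rw [← e]
    _ ≤ _ := by linarith

variable {X : Type*} [NormedAddCommGroup X] [NormedSpace ℂ X] {ι : Type*} {q : ℝ}

/-- The square of the square function. -/
noncomputable def sq2 (m : Model X ι q) {n : ℕ} (x : Fin n → X) (a : ι) : ℝ :=
  ∑ k, ‖m.ev (x k) a‖ ^ 2

lemma sq2_nonneg (m : Model X ι q) {n : ℕ} (x : Fin n → X) (a : ι) : 0 ≤ sq2 m x a := by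
  unfold sq2; positivity

lemma ev_sgn (m : Model X ι q) {n : ℕ} (x : Fin n → X) (i : ℕ) (a : ι) :
    m.ev (∑ k, (sgn n k i : ℂ) • x k) a = ∑ k, (sgn n k i : ℂ) * m.ev (x k) a := by
  simp [Finset.sum_apply]

lemma radNorm_sq {n : ℕ} (x : Fin n → X) : ((2 ^ n : ℕ) : ℝ) * radNorm x ^ 2 =
    ∑ i ∈ range (2 ^ n), ‖∑ k, (sgn n k i : ℂ) • x k‖ ^ 2 := by
  rw [radNorm_eq, Real.sq_sqrt (by positivity), ← mul_assoc, mul_inv_cancel₀ (by positivity),
    one_mul]

lemma radNorm_nonneg {n : ℕ} (x : Fin n → X) : 0 ≤ radNorm x := Real.sqrt_nonneg _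

lemma avg_jensen {N : ℕ} (hN : 0 < N) {r : ℝ} (hr : 1 ≤ r) (z : ℕ → ℝ) (hz : ∀ i, 0 ≤ z i) :
    ((N : ℝ)⁻¹ * ∑ i ∈ range N, z i) ^ r ≤ (N : ℝ)⁻¹ * ∑ i ∈ range N, z i ^ r := by
  have := jensen (range N) (B := 1) hr (fun _ => (N : ℝ)⁻¹) z (fun _ => by positivity) hz (by
    rw [sum_const, card_range, nsmul_eq_mul, mul_inv_cancel₀ (by positivity)])
  simpa only [← mul_sum, Real.one_rpow, one_mul] using this

lemma weight_id {s u r : ℝ} (hs : 0 ≤ s) (hu : 0 ≤ u) (hr : 0 < r) (h : s = 0 → u = 0) :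
    s ^ r * (u / s) ^ r = u ^ r := by
  rcases hs.eq_or_lt with rfl | hs
  · rw [h rfl, Real.zero_rpow hr.ne', zero_mul]
  · rw [← Real.mul_rpow hs.le (by positivity), mul_div_cancel₀ _ hs.ne']

lemma sq_zero_of (m : Model X ι q) {n : ℕ} (x : Fin n → X) (i : ℕ) (a : ι) (h : sq2 m x a = 0) :
    ‖m.ev (∑ k, (sgn n k i : ℂ) • x k) a‖ ^ 2 = 0 := by
  have : ∀ k, m.ev (x k) a = 0 := fun k => by
    have := single_le_sum (f := fun k => ‖m.ev (x k) a‖ ^ 2) (fun _ _ => sq_nonneg _) (mem_univ k)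
    have h2 : ‖m.ev (x k) a‖ ^ 2 = 0 := le_antisymm (this.trans h.le) (sq_nonneg _)
    simpa using h2
  simp [this]

lemma sq_rpow (u : ℝ) (hu : 0 ≤ u) (q : ℝ) : (u ^ 2) ^ (q / 2) = u ^ q := by
  rw [← Real.rpow_natCast, ← Real.rpow_mul hu]; congr 1; push_cast; ring

lemma rpow_two_div (u : ℝ) (hu : 0 ≤ u) {q : ℝ} (hq : 0 < q) : (u ^ q) ^ (2 / q) = u ^ 2 := by
  rw [← Real.rpow_natCast, ← Real.rpow_mul hu]; congr 1; push_cast; field_simp

lemma avg_ratio (m : Model X ι q) {n : ℕ} (x : Fin n → X) (a : ι) :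
    ∑ i ∈ range (2 ^ n), ‖m.ev (∑ k, (sgn n k i : ℂ) • x k) a‖ ^ 2 / sq2 m x a =
      if sq2 m x a = 0 then 0 else ((2 ^ n : ℕ) : ℝ) := by
  simp only [ev_sgn]
  rw [← sum_div, sum_sgn_sq]
  split_ifs with h
  · simp [h]
  · exact mul_div_cancel_right₀ _ h

/-- Rademacher averages are bounded by the square function. -/
theorem rad_le_sq (m : Model X ι q) : ∃ C : ℝ, 0 < C ∧ ∀ (n : ℕ) (y : Fin n → X) (M : ℝ),
    0 ≤ M → (∀ F : Finset ι, ∑ a ∈ F, sq2 m y a ^ (q / 2) ≤ M ^ q) → radNorm y ≤ C * M := by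
  have hq := m.pos
  rcases le_total 2 q with h2 | h2
  · obtain ⟨C, hC, h⟩ := khin_upper hq
    refine ⟨C ^ q⁻¹, by positivity, fun n y M hM hy => ?_⟩
    have hN : (0 : ℝ) < ((2 ^ n : ℕ) : ℝ) := by positivity
    have h1 : ∑ i ∈ range (2 ^ n), ‖∑ k, (sgn n k i : ℂ) • y k‖ ^ q ≤
        ((2 ^ n : ℕ) : ℝ) * (C * M ^ q) := by
      refine hasSum_le_of_sum_le (hasSum_sum fun i _ => m.hasSum _) fun F => ?_
      simp only [ev_sgn]
      refine (sum_le_sum fun a _ => h n _).trans ?_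
      rw [← mul_sum, ← mul_sum]
      gcongr
      exact hy F
    have h3 := avg_jensen (N := 2 ^ n) (by positivity) (r := q / 2) (by linarith)
      (fun i => ‖∑ k, (sgn n k i : ℂ) • y k‖ ^ 2) (fun _ => by positivity)
    simp only [sq_rpow _ (norm_nonneg _)] at h3
    rw [← radNorm_sq, ← mul_assoc, inv_mul_cancel₀ hN.ne', one_mul,
      sq_rpow _ (radNorm_nonneg y)] at h3
    refine (Real.rpow_le_rpow_iff (radNorm_nonneg y) (by positivity) hq).1 (h3.trans ?_)
    rw [Real.mul_rpow (by positivity) hM, Real.rpow_inv_rpow hC.le hq.ne', inv_mul_le_iff₀ hN]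
    exact h1
  · refine ⟨1, one_pos, fun n y M hM hy => ?_⟩
    have hN : (0 : ℝ) < ((2 ^ n : ℕ) : ℝ) := by positivity
    have hr : 1 ≤ 2 / q := by rw [le_div_iff₀ hq]; linarith
    have h1 : ∀ F : Finset ι, ∑ i ∈ range (2 ^ n),
        (∑ a ∈ F, ‖m.ev (∑ k, (sgn n k i : ℂ) • y k) a‖ ^ q) ^ (2 / q) ≤
        ((2 ^ n : ℕ) : ℝ) * M ^ 2 := by
      intro F
      calc _ ≤ ∑ i ∈ range (2 ^ n), (M ^ q) ^ (2 / q - 1) * ∑ a ∈ F, sq2 m y a ^ (q / 2) *
            (‖m.ev (∑ k, (sgn n k i : ℂ) • y k) a‖ ^ 2 / sq2 m y a) := by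
            refine sum_le_sum fun i _ => ?_
            have := jensen F (B := M ^ q) hr (fun a => sq2 m y a ^ (q / 2))
              (fun a => (‖m.ev (∑ k, (sgn n k i : ℂ) • y k) a‖ ^ 2 / sq2 m y a) ^ (q / 2))
              (fun a => Real.rpow_nonneg (sq2_nonneg m y a) _)
              (fun a => Real.rpow_nonneg (div_nonneg (sq_nonneg _) (sq2_nonneg m y a)) _) (hy F)
            refine le_of_eq_of_le ?_ (this.trans (le_of_eq ?_))
            · congr 1
              refine sum_congr rfl fun a _ => ?_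
              rw [weight_id (sq2_nonneg m y a) (sq_nonneg _) (by positivity) (sq_zero_of m y i a),
                sq_rpow _ (norm_nonneg _)]
            · congr 1
              refine sum_congr rfl fun a _ => ?_
              rw [← Real.rpow_mul (div_nonneg (sq_nonneg _) (sq2_nonneg m y a)),
                show q / 2 * (2 / q) = 1 by field_simp, Real.rpow_one]
        _ = (M ^ q) ^ (2 / q - 1) * ∑ a ∈ F, sq2 m y a ^ (q / 2) *
            (if sq2 m y a = 0 then 0 else ((2 ^ n : ℕ) : ℝ)) := by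
            rw [← mul_sum, sum_comm]
            simp only [← mul_sum, avg_ratio]
        _ ≤ (M ^ q) ^ (2 / q - 1) * (M ^ q * ((2 ^ n : ℕ) : ℝ)) := by
            gcongr
            refine le_trans (sum_le_sum fun a _ => mul_le_mul_of_nonneg_left
              (c := ((2 ^ n : ℕ) : ℝ)) (by split_ifs; exacts [hN.le, le_rfl])
              (Real.rpow_nonneg (sq2_nonneg m y a) _)) ?_
            rw [← sum_mul]
            gcongr
            exact hy F
        _ = _ := by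
            rw [← mul_assoc, ← Real.rpow_add_one' (by positivity) (by rw [sub_add_cancel]; positivity),
              sub_add_cancel, rpow_two_div _ hM hq, mul_comm]
    have h3 : Tendsto (fun F : Finset ι => ∑ i ∈ range (2 ^ n),
        (∑ a ∈ F, ‖m.ev (∑ k, (sgn n k i : ℂ) • y k) a‖ ^ q) ^ (2 / q)) atTop
        (𝓝 (∑ i ∈ range (2 ^ n), (‖∑ k, (sgn n k i : ℂ) • y k‖ ^ q) ^ (2 / q))) :=
      tendsto_finsetSum _ fun i _ => Tendsto.rpow_const (m.hasSum _) (Or.inr (by positivity))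
    have h4 := le_of_tendsto' h3 h1
    simp only [rpow_two_div _ (norm_nonneg _) hq] at h4
    rw [← radNorm_sq] at h4
    rw [one_mul]
    exact (pow_le_pow_iff_left₀ (radNorm_nonneg y) hM two_ne_zero).1
      (le_of_mul_le_mul_left h4 hN)

/-- The square function is bounded by Rademacher averages. -/
theorem sq_le_rad (m : Model X ι q) : ∃ C : ℝ, 0 < C ∧ ∀ (n : ℕ) (x : Fin n → X) (F : Finset ι),
    ∑ a ∈ F, sq2 m x a ^ (q / 2) ≤ (C * radNorm x) ^ q := by
  have hq := m.pos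
  rcases le_total 2 q with h2 | h2
  · refine ⟨1, one_pos, fun n x F => ?_⟩
    have hN : (0 : ℝ) < ((2 ^ n : ℕ) : ℝ) := by positivity
    set Y := ∑ a ∈ F, sq2 m x a ^ (q / 2) with hY
    have hY0 : 0 ≤ Y := sum_nonneg fun a _ => Real.rpow_nonneg (sq2_nonneg m x a) _
    have h1 : ((2 ^ n : ℕ) : ℝ) * Y ≤ Y ^ (1 - 2 / q) * (((2 ^ n : ℕ) : ℝ) * radNorm x ^ 2) := by
      calc _ = ∑ a ∈ F, sq2 m x a ^ (q / 2) * (if sq2 m x a = 0 then 0 else ((2 ^ n : ℕ) : ℝ)) := by
            rw [hY, mul_sum]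
            refine sum_congr rfl fun a _ => ?_
            split_ifs with h
            · rw [h, Real.zero_rpow (by positivity)]; simp
            · ring
        _ = ∑ i ∈ range (2 ^ n), ∑ a ∈ F, sq2 m x a ^ (q / 2) *
            (‖m.ev (∑ k, (sgn n k i : ℂ) • x k) a‖ ^ 2 / sq2 m x a) := by
            rw [sum_comm]
            simp only [← mul_sum, avg_ratio]
        _ ≤ _ := by
            rw [radNorm_sq, mul_sum]
            refine sum_le_sum fun i _ => ?_
            refine (Real.inner_le_weight_mul_Lp_of_nonneg F (p := q / 2) (by linarith) _ _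
              (fun a => Real.rpow_nonneg (sq2_nonneg m x a) _)
              (fun a => div_nonneg (sq_nonneg _) (sq2_nonneg m x a))).trans ?_
            rw [inv_div, ← hY, ← rpow_two_div _ (norm_nonneg _) hq]
            refine mul_le_mul_of_nonneg_left (Real.rpow_le_rpow (sum_nonneg fun a _ => mul_nonneg
              (Real.rpow_nonneg (sq2_nonneg m x a) _) (Real.rpow_nonneg
                (div_nonneg (sq_nonneg _) (sq2_nonneg m x a)) _)) ?_ (by positivity))
              (Real.rpow_nonneg hY0 _)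
            refine le_of_eq_of_le (sum_congr rfl fun a _ => ?_) (m.sum_le _ F)
            rw [weight_id (sq2_nonneg m x a) (sq_nonneg _) (by positivity) (sq_zero_of m x i a),
              sq_rpow _ (norm_nonneg _)]
    rcases hY0.eq_or_lt with h0 | h0
    · rw [← h0]; exact Real.rpow_nonneg (by have := radNorm_nonneg x; positivity) _
    have e : Y = Y ^ (1 - 2 / q) * Y ^ (2 / q) := by rw [← Real.rpow_add h0]; simp
    have h3 : Y ^ (2 / q) ≤ radNorm x ^ 2 := by
      have h5 : 0 < ((2 ^ n : ℕ) : ℝ) * Y ^ (1 - 2 / q) := by positivity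
      refine le_of_mul_le_mul_left ?_ h5
      rw [mul_assoc, ← e]
      linarith
    rw [one_mul, ← sq_rpow _ (radNorm_nonneg x)]
    calc Y = (Y ^ (2 / q)) ^ (q / 2) := by
          rw [← Real.rpow_mul hY0, show 2 / q * (q / 2) = 1 by field_simp, Real.rpow_one]
      _ ≤ _ := by gcongr
  · obtain ⟨C, hC, h⟩ := khin_lower hq h2
    refine ⟨C ^ q⁻¹, by positivity, fun n x F => ?_⟩
    have hN : (0 : ℝ) < ((2 ^ n : ℕ) : ℝ) := by positivity
    have hr : 1 ≤ 2 / q := by rw [le_div_iff₀ hq]; linarith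
    have h1 : ((2 ^ n : ℕ) : ℝ) * ∑ a ∈ F, sq2 m x a ^ (q / 2) ≤
        C * ∑ i ∈ range (2 ^ n), ‖∑ k, (sgn n k i : ℂ) • x k‖ ^ q := by
      rw [mul_sum]
      refine (sum_le_sum fun a _ => h n _).trans ?_
      rw [← mul_sum, sum_comm]
      gcongr with i hi
      simpa only [ev_sgn] using m.sum_le (∑ k, (sgn n k i : ℂ) • x k) F
    have h3 := avg_jensen (N := 2 ^ n) (by positivity) hr
      (fun i => ‖∑ k, (sgn n k i : ℂ) • x k‖ ^ q) (fun _ => by positivity)
    simp only [rpow_two_div _ (norm_nonneg _) hq] at h3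
    rw [← radNorm_sq, ← mul_assoc, inv_mul_cancel₀ hN.ne', one_mul,
      ← rpow_two_div _ (radNorm_nonneg x) hq] at h3
    have h4 := (Real.rpow_le_rpow_iff (by positivity)
      (Real.rpow_nonneg (radNorm_nonneg x) _) (by positivity)).1 h3
    rw [Real.mul_rpow (by positivity) (radNorm_nonneg x), Real.rpow_inv_rpow hC.le hq.ne']
    rw [inv_mul_le_iff₀ hN] at h4
    refine le_of_mul_le_mul_left (h1.trans ?_) hN
    calc _ ≤ C * (((2 ^ n : ℕ) : ℝ) * radNorm x ^ q) := by gcongr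
      _ = _ := by ring

end Pool.Agent.MP_a83649_an.WS
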