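import Pool.Agent.MP_a83649_an.WS.Test

/-! The choice of the weights. -/

open Finset

namespace Pool.Agent.MP_a83649_an.WS

/-- The weights `2^{-α}` and `2^{-β}` of the edges. -/
noncomputable def th (α β : ℝ) (s : Bool) : ℝ := if s then 2 ^ (-β) else 2 ^ (-α)

variable {α β q : ℝ}

lemma th_nonneg (α β : ℝ) (s : Bool) : 0 ≤ th α β s := by unfold th; split_ifs <;> positivity

lemma th_le (α β : ℝ) (s : Bool) : th α β s ≤ 2 ^ (-min α β) := by
  unfold th; split_ifs <;> refine Real.rpow_le_rpow_of_exponent_le one_le_two (neg_le_neg ?_)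
  exacts [min_le_right _ _, min_le_left _ _]

lemma tau_lt (hα : 0 < α) (hβ : 0 < β) : (2 : ℝ) ^ (-min α β) < 1 :=
  Real.rpow_lt_one_of_one_lt_of_neg one_lt_two (neg_lt_zero.2 (lt_min hα hβ))

lemma half_rpow (u : ℝ) : (2⁻¹ : ℝ) ^ u = 2 ^ (-u) := by
  rw [Real.inv_rpow zero_le_two, Real.rpow_neg zero_le_two]

lemma one_le_two_mul {u : ℝ} (h : -1 ≤ u) : (1 : ℝ) ≤ 2 * 2 ^ u := by
  rw [mul_comm, ← Real.rpow_add_one two_ne_zero]
  exact Real.one_le_rpow one_le_two (by linarith)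

lemma th_unb (hα : α ≤ 1 / 2) (hβ : β ≤ 1 / 2) (hq : 1 < q) : (tree (th α β)).Unb' q := by
  have hq0 : 0 < q := by linarith
  rcases le_total q 2 with h | h
  · refine unb_false hq0 (th_nonneg _ _ _) ?_
    rw [th, if_neg (by simp), ← Real.rpow_mul zero_le_two]
    exact one_le_two_mul (by nlinarith)
  · refine unb_true hq (th_nonneg _ _ _) ?_
    rw [th, if_pos rfl, half_rpow, ← Real.rpow_add two_pos]
    have : q⁻¹ ≤ 2⁻¹ := inv_anti₀ two_pos h
    exact one_le_two_mul (by linarith)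

lemma th_unSq_low (hα : 0 < α) (hq : 0 < q) (h : α + 1 / 2 ≤ q⁻¹) : (tree (th α β)).UnSq q := by
  have h1 : (α + 1 / 2) * q ≤ 1 := by
    rwa [← one_div q, le_div_iff₀ hq] at h
  refine unSq_false hq (by nlinarith) (th_nonneg _ _ _) ?_
  rw [th, if_neg (by simp), half_rpow, ← Real.rpow_add two_pos, ← Real.rpow_mul zero_le_two]
  exact one_le_two_mul (by nlinarith)

lemma th_unSq_high (hβ : 0 < β) (hq : 0 < q) (h : q⁻¹ ≤ 1 / 2 - β) : (tree (th α β)).UnSq q := by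
  have h1 : 1 ≤ (1 / 2 - β) * q := by
    rwa [← one_div q, div_le_iff₀ hq] at h
  refine unSq_true (by nlinarith) (th_nonneg _ _ _) ?_
  rw [th, if_pos rfl, half_rpow, ← Real.rpow_add two_pos, ← Real.rpow_natCast,
    ← Real.rpow_mul zero_le_two]
  exact one_le_two_mul (by push_cast; linarith)

lemma th_sqB (hα : 0 < α) (hβ : 0 < β) (hq : 0 < q) (h1 : q⁻¹ < α + 1 / 2)
    (h2 : 1 / 2 - β < q⁻¹) : (tree (th α β)).SqB q := by
  set δ := min (min α β) (min (α + 1 / 2 - q⁻¹) (q⁻¹ - (1 / 2 - β))) with hδ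
  have d0 : 0 < δ := lt_min (lt_min hα hβ) (lt_min (by linarith) (by linarith))
  have d1 : δ ≤ α := (min_le_left _ _).trans (min_le_left _ _)
  have d2 : δ ≤ β := (min_le_left _ _).trans (min_le_right _ _)
  have d3 : δ ≤ α + 1 / 2 - q⁻¹ := (min_le_right _ _).trans (min_le_left _ _)
  have d4 : δ ≤ q⁻¹ - (1 / 2 - β) := (min_le_right _ _).trans (min_le_right _ _)
  have e := inv_mul_cancel₀ hq.ne'
  refine tree_sqB (γ := 2 ^ (-δ)) hq (th_nonneg _ _) (by positivity)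
    (Real.rpow_lt_one_of_one_lt_of_neg one_lt_two (by linarith)) fun s => ?_
  unfold th
  split_ifs <;> simp only [Real.one_rpow, mul_one, ← Real.rpow_mul zero_le_two,
    ← Real.rpow_add two_pos] <;> refine Real.rpow_le_rpow_of_exponent_le one_le_two ?_
  · rcases max_cases (q / 2 - 1) 0 with h | h <;> rw [h.1] <;> nlinarith
  · rcases max_cases (1 - q / 2) 0 with h | h <;> rw [h.1] <;> nlinarith

/-- Renumbering of the coordinates. -/
def reindex {X : Type*} [NormedAddCommGroup X] [NormedSpace ℂ X] {ι ι' : Type*}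
    (m : Model X ι q) (e : ι' ≃ ι) : Model X ι' q where
  ev := LinearMap.funLeft ℂ ℂ e ∘ₗ m.ev
  one_lt := m.one_lt
  hasSum x := (e.hasSum_iff (f := fun a => ‖m.ev x a‖ ^ q)).2 (m.hasSum x)
  surj f hf := by
    obtain ⟨x, hx⟩ := m.surj (f ∘ e.symm)
      ((e.symm.summable_iff (f := fun a => ‖f a‖ ^ q)).2 hf)
    exact ⟨x, funext fun a => by simp [LinearMap.funLeft_apply, hx]⟩

lemma mon_exp {t : ℝ} (ht : 0 ≤ t) : Mon (fun n => Real.exp (-(t * dd n))) 1 :=
  ⟨fun a b h => by have := dd_mono h; dsimp only; gcongr, fun n => (Real.exp_pos _).le,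
    fun n => Real.exp_le_one_iff.2 (by have := dd_pos n; nlinarith)⟩

lemma ker_nonneg {θ : Bool → ℝ} (h0 : ∀ s, 0 ≤ θ s) {φ : ℕ → ℝ} {B : ℝ} (hφ : Mon φ B)
    (a b : Nd) : 0 ≤ (tree θ).ker φ a b :=
  add_nonneg (by split_ifs; exacts [hφ.2.1 _, le_rfl])
    (sum_nonneg fun k _ => tree_w_nonneg h0 hφ a k)

end Pool.Agent.MP_a83649_an.WS
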