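import Pool.Agent.MP_a83649_an.WS.Tree

/-! The calculus on the two forests is multiplicative. -/

open Finset

namespace Pool.Agent.MP_a83649_an.WS

lemma sum_U (n : ℕ) (a : Nd) (u : Nd → ℂ) :
    ∑ y ∈ U (n + 1 + 1) a, u y = ∑ c ∈ U 1 a, ∑ y ∈ U (n + 1) c, u y := by
  have h0 : 0 < 2 ^ (n + 1) := by positivity
  have h1 : 2 ^ (n + 1) ≤ (anc 1 a).2.2 ↔ 2 ^ (n + 1 + 1) ≤ a.2.2 := by
    simp only [anc, pow_one]
    rw [Nat.le_div_iff_mul_le two_pos, ← pow_succ]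
  by_cases h2 : 2 ^ 1 ≤ a.2.2
  · rw [U, U, if_pos h2, sum_singleton, U, anc_anc, add_comm 1 (n + 1)]
    simp only [h1]
  · rw [U, U, if_neg h2, if_neg, sum_empty, sum_empty]
    exact fun h => h2 (le_trans (Nat.pow_le_pow_right two_pos (by omega)) h)

lemma sum_E (n : ℕ) (a : Nd) (u : Nd → ℂ) :
    ∑ y ∈ E (n + 1 + 1) a, u y = ∑ c ∈ E 1 a, ∑ y ∈ E (n + 1) c, u y := by
  rw [sum_congr rfl (s₂ := E 1 a) (g := fun c => ∑ y ∈ if a.1 then D (n + 1) c else U (n + 1) c, u y)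
    fun c hc => by rw [← side_E hc]; rfl]
  unfold E; split_ifs
  exacts [sum_D n a u, sum_U n a u]

variable (θ : Bool → ℝ)

noncomputable def ZK (K : ℕ) (u : Nd → ℂ) (a : Nd) : ℂ :=
  ∑ n ∈ range K, (θ a.1 : ℂ) ^ (n + 1) * ∑ y ∈ E (n + 1) a, u y

noncomputable def Z (u : Nd → ℂ) (a : Nd) : ℂ := ZK θ (a.2.1 + a.2.2) u a

lemma ZK_eq {K : ℕ} (u : Nd → ℂ) {a : Nd} (hK : a.2.1 + a.2.2 ≤ K) : ZK θ K u a = Z θ u a := by
  refine (sum_subset (range_mono hK) fun n _ hn => ?_).symm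
  rw [E_empty (by simp only [mem_range] at hn; omega), sum_empty, mul_zero]

lemma size_E {a c : Nd} (h : c ∈ E 1 a) : c.2.1 + c.2.2 ≤ 2 * (a.2.1 + a.2.2) + 1 := by
  unfold E at h
  split_ifs at h
  · obtain ⟨-, rfl⟩ := mem_D.1 h
    simp only [anc, pow_one]; omega
  · obtain ⟨-, rfl⟩ := mem_D.1 (mem_U.1 h)
    simp only [anc, pow_one]; omega

lemma Z_rec (u : Nd → ℂ) (a : Nd) : Z θ u a = θ a.1 * ∑ c ∈ E 1 a, (u c + Z θ u c) := by
  rw [← ZK_eq θ u (K := 2 * (a.2.1 + a.2.2) + 1 + 1) (by omega), ZK, sum_range_succ',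
    sum_add_distrib, add_comm, mul_add (θ a.1 : ℂ)]
  congr 1
  · simp
  · rw [sum_congr rfl (s₂ := E 1 a) (g := fun c => ∑ n ∈ range (2 * (a.2.1 + a.2.2) + 1),
      (θ a.1 : ℂ) ^ (n + 1) * ∑ y ∈ E (n + 1) c, u y) fun c hc => by
        rw [← ZK_eq θ u (size_E hc), ZK, side_E hc], sum_comm, mul_sum]
    refine sum_congr rfl fun n _ => ?_
    rw [sum_E, ← mul_sum]; ring

lemma P_false (g : ℕ → ℂ) (f : Nd → ℂ) {a : Nd} (ha : a.1 = false) :
    (tree θ).P g f a = g (lev a) * f a + (g (lev a) - g (plev a)) * Z θ f a := by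
  rw [tree_P θ g f a le_rfl, Z, ZK, mul_sum]
  congr 1
  refine sum_congr rfl fun n _ => ?_
  simp only [low, ha, Bool.false_eq_true, if_false, ← mul_sum]
  ring

lemma P_true (g : ℕ → ℂ) (f : Nd → ℂ) {a : Nd} (ha : a.1 = true) :
    (tree θ).P g f a = g (lev a) * f a + Z θ (fun y => (g (lev y) - g (plev y)) * f y) a := by
  rw [tree_P θ g f a le_rfl, Z, ZK]
  simp only [low, ha, if_true]

lemma Z_P_false (g : ℕ → ℂ) (f : Nd → ℂ) (j : ℕ) : ∀ a : Nd, a.1 = false → a.2.2 = j →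
    Z θ ((tree θ).P g f) a = g (plev a) * Z θ f a := by
  induction j using Nat.strong_induction_on with
  | _ j ih =>
    intro a ha hj
    rw [Z_rec θ _ a, Z_rec θ f a, E, if_neg (by simp [ha]), U]
    split_ifs with h
    · have h1 : (anc 1 a).1 = false := ha
      rw [sum_singleton, sum_singleton, ih _ (by simp only [anc, pow_one] at h ⊢; omega) _ h1 rfl,
        P_false θ g f h1, plev.eq_1 a]
      ring
    · simp

lemma mul_false (g h : ℕ → ℂ) (f : Nd → ℂ) {a : Nd} (ha : a.1 = false) :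
    (tree θ).P g ((tree θ).P h f) a = (tree θ).P (fun n => g n * h n) f a := by
  rw [P_false θ g _ ha, Z_P_false θ h f _ a ha rfl, P_false θ h f ha, P_false θ _ f ha]
  ring

lemma W_P (g : ℕ → ℂ) (f : Nd → ℂ) {a : Nd} (ha : a.1 = true) :
    (tree θ).P g f a - θ true * ∑ c ∈ D 1 a, (tree θ).P g f c =
      g (lev a) * (f a - θ true * ∑ c ∈ D 1 a, f c) := by
  rw [P_true θ g f ha, Z_rec, E, if_pos ha, ha, add_sub_assoc, ← mul_sub, ← sum_sub_distrib,
    mul_sub, mul_left_comm, sub_eq_add_neg, ← mul_neg, mul_sum, mul_sum, ← sum_neg_distrib,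
    mul_sum]
  congr 1
  refine sum_congr rfl fun c hc => ?_
  rw [P_true θ g f ((side_D hc).trans ha), ← (mem_D.1 hc).2, ← plev.eq_1 c]
  ring

lemma mul_true (g h : ℕ → ℂ) (f : Nd → ℂ) (k : ℕ) : ∀ a : Nd, a.1 = true → a.2.1 = k →
    (tree θ).P g ((tree θ).P h f) a = (tree θ).P (fun n => g n * h n) f a := by
  induction k using Nat.strong_induction_on with
  | _ k ih =>
    intro a ha hk
    have h1 := W_P θ g ((tree θ).P h f) ha
    have h2 := W_P θ (fun n => g n * h n) f ha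
    rw [W_P θ h f ha, ← mul_assoc, ← h2, sum_congr rfl fun c hc => ih c.2.1 (by
      rw [← hk, ← (mem_D.1 hc).2]; simp [anc]) c ((side_D hc).trans ha) rfl] at h1
    exact sub_left_injective h1

lemma tree_mul (g h : ℕ → ℂ) (f : Nd → ℂ) :
    (tree θ).P g ((tree θ).P h f) = (tree θ).P (fun n => g n * h n) f := by
  funext a
  cases ha : a.1
  exacts [mul_false θ g h f ha, mul_true θ g h f _ a ha rfl]

end Pool.Agent.MP_a83649_an.WS
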