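import Pool.Agent.MP_a83649_an.WS.Defs
import Pool.Agent.MP_a83649_an.WS.Khin
import Pool.Agent.MP_a83649_an.WS.Frame

/-! R-boundedness, its failure, and the kernel of the semigroup, from combinatorial data. -/

open Filter Topology Finset

namespace Pool.Agent.MP_a83649_an.WS

variable {ι κ : Type*}

/-- The weight of an off-diagonal entry. -/
def Dat.w (s : Dat ι κ) (φ : ℕ → ℝ) (a : ι) (k : κ) : ℝ := s.c a k * (φ (s.lo a k) - φ (s.hi a k))

/-- Monotone functions with values in `[0, B]`. -/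
def Mon (φ : ℕ → ℝ) (B : ℝ) : Prop := Antitone φ ∧ (∀ n, 0 ≤ φ n) ∧ ∀ n, φ n ≤ B

/-- The square function estimate. -/
def Dat.SqB (s : Dat ι κ) (q : ℝ) : Prop := ∃ C : ℝ, 0 ≤ C ∧
  ∀ (n : ℕ) (φ : Fin n → ℕ → ℝ) (B : ℝ), 0 ≤ B → (∀ j, Mon (φ j) B) →
    ∀ (x : Fin n → ι → ℝ) (M : ℝ), (∀ j a, 0 ≤ x j a) →
    (∀ F : Finset ι, ∑ a ∈ F, (∑ j, x j a ^ 2) ^ (q / 2) ≤ M) → ∀ F : Finset ι,
    ∑ a ∈ F, (∑ j, (∑ k ∈ s.S a, s.w (φ j) a k * x j (s.nb a k)) ^ 2) ^ (q / 2) ≤ (C * B) ^ q * M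

/-- Failure of unconditionality on finitely supported vectors. -/
def Dat.Unb' (s : Dat ι κ) (q : ℝ) : Prop := ∀ C : ℝ, ∃ (L : ℕ) (x : ι → ℂ) (G F : Finset ι),
  (∀ a ∉ G, x a = 0) ∧ ∀ ρ : ℕ → ℝ, (∀ n ≤ L, 1 / 4 ≤ ρ n) →
    C * ∑ a ∈ G, ‖x a‖ ^ q < ∑ a ∈ F, ‖s.P (fun n => ρ n * (-1) ^ n) x a‖ ^ q

/-- Failure of the square function estimate for the resolvents on the negative axis. -/
def Dat.UnSq (s : Dat ι κ) (q : ℝ) : Prop := ∀ C : ℝ, ∃ (J : Finset ι) (t : ι → ℝ)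
  (x : ι → ι → ℂ) (G F : Finset ι), (∀ z, 0 < t z) ∧ (∀ z, ∀ a ∉ G, x z a = 0) ∧
    C * ∑ a ∈ G, (∑ z ∈ J, ‖x z a‖ ^ 2) ^ (q / 2) <
      ∑ a ∈ F, (∑ z ∈ J, ‖s.P (fun l => ((t z / (t z + dd l) : ℝ) : ℂ)) (x z) a‖ ^ 2) ^ (q / 2)

lemma add_rpow_le {u v r : ℝ} (hu : 0 ≤ u) (hv : 0 ≤ v) (hr : 0 ≤ r) :
    (u + v) ^ r ≤ 2 ^ r * (u ^ r + v ^ r) := by
  have hu' := Real.rpow_nonneg hu r
  have hv' := Real.rpow_nonneg hv r
  rcases le_total u v with h | h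
  · calc _ ≤ (2 * v) ^ r := Real.rpow_le_rpow (by positivity) (by linarith) hr
      _ = 2 ^ r * v ^ r := Real.mul_rpow zero_le_two hv
      _ ≤ _ := by gcongr; linarith
  · calc _ ≤ (2 * u) ^ r := Real.rpow_le_rpow (by positivity) (by linarith) hr
      _ = 2 ^ r * u ^ r := Real.mul_rpow zero_le_two hu
      _ ≤ _ := by gcongr; linarith

lemma good_smul {g : ℕ → ℂ} {B B' : ℝ} (hg : Good g B) (l : ℂ) (h : ‖l‖ * B ≤ B') :
    Good (fun n => l * g n) B' := by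
  obtain ⟨h1, φ, hφ, h0, hB, h2⟩ := hg
  have hl := norm_nonneg l
  refine ⟨fun n => ?_, fun n => ‖l‖ * φ n, fun a b hab => ?_, fun n => mul_nonneg hl (h0 n),
    fun n => le_trans ?_ h, fun n k => ?_⟩
  · rw [norm_mul]; exact le_trans (by gcongr; exact h1 n) h
  · exact mul_le_mul_of_nonneg_left (hφ hab) hl
  · exact mul_le_mul_of_nonneg_left (hB n) hl
  · rw [← mul_sub, ← mul_sub, norm_mul, abs_mul, abs_of_nonneg hl]
    exact mul_le_mul_of_nonneg_left (h2 n k) hl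

/-- Schur's test. -/
lemma Dat.schur [DecidableEq ι] (s : Dat ι κ) {q : ℝ} (hq : 1 ≤ q) {φ : ℕ → ℝ} {R : ℝ}
    (hR : 0 ≤ R) (hw : ∀ a, ∀ k ∈ s.S a, 0 ≤ s.w φ a k) (hr : ∀ a, ∑ k ∈ s.S a, s.w φ a k ≤ R)
    (hc : ∀ (b : ι) (F : Finset ι), ∑ a ∈ F, ∑ k ∈ s.S a with s.nb a k = b, s.w φ a k ≤ R)
    (x : ι → ℝ) (M : ℝ) (hx : ∀ a, 0 ≤ x a) (hM : ∀ F : Finset ι, ∑ a ∈ F, x a ^ q ≤ M)
    (F : Finset ι) : ∑ a ∈ F, (∑ k ∈ s.S a, s.w φ a k * x (s.nb a k)) ^ q ≤ R ^ q * M := by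
  classical
  have h1 : ∀ a, (∑ k ∈ s.S a, s.w φ a k * x (s.nb a k)) ^ q ≤
      R ^ (q - 1) * ∑ k ∈ s.S a, s.w φ a k * x (s.nb a k) ^ q := by
    intro a
    have e : ∀ f : κ → ℝ, ∑ k ∈ s.S a, max (s.w φ a k) 0 * f k = ∑ k ∈ s.S a, s.w φ a k * f k :=
      fun f => sum_congr rfl fun k hk => by rw [max_eq_left (hw a k hk)]
    have := jensen (s.S a) (B := R) hq (fun k => max (s.w φ a k) 0) (fun k => x (s.nb a k))
      (fun k => le_max_right _ _) (fun k => hx _) (by simpa using (e fun _ => 1).trans_le (by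
        simpa using hr a))
    rwa [e, e] at this
  set G := F.biUnion fun a => (s.S a).image (s.nb a) with hG
  have h2 : ∑ a ∈ F, ∑ k ∈ s.S a, s.w φ a k * x (s.nb a k) ^ q =
      ∑ b ∈ G, (∑ a ∈ F, ∑ k ∈ s.S a with s.nb a k = b, s.w φ a k) * x b ^ q := by
    simp only [sum_mul]
    rw [sum_comm]
    refine sum_congr rfl fun a ha => ?_
    rw [← sum_fiberwise_of_maps_to (t := G) (g := s.nb a) fun k hk =>
      mem_biUnion.2 ⟨a, ha, mem_image_of_mem _ hk⟩]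
    refine sum_congr rfl fun b _ => sum_congr rfl fun k hk => ?_
    rw [(mem_filter.1 hk).2]
  calc _ ≤ ∑ a ∈ F, R ^ (q - 1) * ∑ k ∈ s.S a, s.w φ a k * x (s.nb a k) ^ q :=
        sum_le_sum fun a _ => h1 a
    _ ≤ R ^ (q - 1) * (R * M) := by
        rw [← mul_sum, h2]
        gcongr
        refine (sum_le_sum fun b _ => mul_le_mul_of_nonneg_right (hc b F)
          (Real.rpow_nonneg (hx b) _)).trans ?_
        rw [← mul_sum]
        gcongr
        exact hM G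
    _ = _ := by rw [← mul_assoc, ← Real.rpow_add_one' hR (by linarith), sub_add_cancel]

/-- The matrix of `φ(A)`. -/
def Dat.ker [DecidableEq ι] (s : Dat ι κ) (φ : ℕ → ℝ) (a b : ι) : ℝ :=
  (if a = b then φ (s.lev a) else 0) + ∑ k ∈ s.S a with s.nb a k = b, s.w φ a k

lemma Dat.hasSum_ker [DecidableEq ι] (s : Dat ι κ) (φ : ℕ → ℝ) (x : ι → ℂ) (a : ι) :
    HasSum (fun b => (s.ker φ a b : ℂ) * x b) (s.P (fun n => (φ n : ℂ)) x a) := by
  rw [Dat.P_apply]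
  have h1 : HasSum (fun b => if b = a then (φ (s.lev a) : ℂ) * x a else 0) _ := hasSum_ite_eq a _
  have h2 : HasSum (fun b => ∑ k ∈ s.S a, if b = s.nb a k then
      (s.c a k * ((φ (s.lo a k) : ℂ) - φ (s.hi a k)) * x (s.nb a k)) else 0) _ :=
    hasSum_sum fun k _ => hasSum_ite_eq (s.nb a k) _
  convert h1.add h2 using 2 with b
  rw [Dat.ker, sum_filter]
  push_cast
  rw [add_mul, sum_mul]
  congr 1
  · by_cases h : a = b
    · subst h; simp
    · simp [h, Ne.symm h]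
  · refine sum_congr rfl fun k _ => ?_
    by_cases h : s.nb a k = b
    · subst h; simp [Dat.w]
    · simp [h, Ne.symm h]

lemma Dat.ker_row [DecidableEq ι] (s : Dat ι κ) {φ : ℕ → ℝ} {B R : ℝ} (hφ : Mon φ B)
    (hw : ∀ a, ∀ k ∈ s.S a, 0 ≤ s.w φ a k) (hr : ∀ a, ∑ k ∈ s.S a, s.w φ a k ≤ R) (a : ι)
    (F : Finset ι) : ∑ b ∈ F, s.ker φ a b ≤ B + R := by
  simp only [Dat.ker, sum_add_distrib]
  refine add_le_add ?_ (le_trans ?_ (hr a))
  · rw [sum_ite_eq]; split_ifs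
    · exact hφ.2.2 _
    · exact (hφ.2.1 0).trans (hφ.2.2 0)
  · simp only [sum_filter]
    rw [sum_comm]
    refine sum_le_sum fun k hk => ?_
    rw [sum_ite_eq]; split_ifs
    · exact le_rfl
    · exact hw a k hk

lemma Dat.ker_col [DecidableEq ι] (s : Dat ι κ) {φ : ℕ → ℝ} {B R : ℝ} (hφ : Mon φ B)
    (hc : ∀ (b : ι) (F : Finset ι), ∑ a ∈ F, ∑ k ∈ s.S a with s.nb a k = b, s.w φ a k ≤ R)
    (b : ι) (F : Finset ι) : ∑ a ∈ F, s.ker φ a b ≤ B + R := by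
  simp only [Dat.ker, sum_add_distrib]
  refine add_le_add ?_ (hc b F)
  rw [sum_ite_eq']; split_ifs
  · exact hφ.2.2 _
  · exact (hφ.2.1 0).trans (hφ.2.2 0)

namespace Sys2

variable {q : ℝ} (s : Sys2 ι κ q)
variable {X : Type*} [NormedAddCommGroup X] [NormedSpace ℂ X] (m : Model X ι q)

lemma rBounded (h : s.toDat.SqB q) (B : ℝ) :
    RBounded {T : X →L[ℂ] X | ∃ g, Good g B ∧ T = s.Phi m g} := by
  obtain ⟨C, hC, h⟩ := h
  obtain ⟨C1, hC1, h1⟩ := rad_le_sq m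
  obtain ⟨C2, hC2, h2⟩ := sq_le_rad m
  have hq := m.pos
  refine ⟨C1 * (4 * ((1 + C) * |B|) * C2), fun n T x hT => ?_⟩
  choose g hg hT using hT
  have hg' := hg
  choose g1 φ hφ hφ0 hφB g2 using hg'
  have hx := radNorm_nonneg x
  have hB : ∀ j l, φ j l ≤ |B| := fun j l => (hφB j l).trans (le_abs_self B)
  have hB0 := abs_nonneg B
  rw [mul_assoc]
  refine h1 n _ _ (by positivity) fun F => ?_
  have h3 := h n φ |B| hB0 (fun j => ⟨hφ j, hφ0 j, hB j⟩) (fun j a => ‖m.ev (x j) a‖) _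
    (fun _ _ => norm_nonneg _) (h2 n x) F
  have h4 := h2 n x F
  set M := (C2 * radNorm x) ^ q with hM
  have hM0 : 0 ≤ M := by positivity
  have h5 : ∀ a, sq2 m (fun j => T j (x j)) a ^ (q / 2) ≤ 2 ^ q * (|B| ^ q * sq2 m x a ^ (q / 2) +
      (∑ j, (∑ k ∈ s.S a, s.toDat.w (φ j) a k * ‖m.ev (x j) (s.nb a k)‖) ^ 2) ^ (q / 2)) := by
    intro a
    set W := ∑ j, (∑ k ∈ s.S a, s.toDat.w (φ j) a k * ‖m.ev (x j) (s.nb a k)‖) ^ 2 with hW
    have hW0 : 0 ≤ W := by positivity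
    have hs := sq2_nonneg m x a
    have h6 : sq2 m (fun j => T j (x j)) a ≤ 2 * (|B| ^ 2 * sq2 m x a + W) := by
      rw [hW, sq2, sq2, mul_sum, ← sum_add_distrib, mul_sum]
      refine sum_le_sum fun j _ => ?_
      rw [hT j, s.ev_Phi m (hg j), P_apply]
      have h7 := s.term_le (hφ j) (g2 j) (m.ev (x j)) a
      have h8 : ‖g j (s.lev a) * m.ev (x j) a‖ ≤ |B| * ‖m.ev (x j) a‖ := by
        rw [norm_mul]; gcongr; exact (g1 j _).trans (le_abs_self B)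
      have h9 := pow_le_pow_left₀ (norm_nonneg _) ((norm_add_le _ _).trans (add_le_add h8 h7)) 2
      refine h9.trans ?_
      simp only [Dat.w]
      nlinarith [sq_nonneg (|B| * ‖m.ev (x j) a‖ - ∑ k ∈ s.S a,
        s.c a k * (φ j (s.lo a k) - φ j (s.hi a k)) * ‖m.ev (x j) (s.nb a k)‖)]
    calc _ ≤ (2 * (|B| ^ 2 * sq2 m x a + W)) ^ (q / 2) :=
          Real.rpow_le_rpow (sq2_nonneg m _ a) h6 (by positivity)
      _ ≤ 2 ^ (q / 2) * (2 ^ (q / 2) * ((|B| ^ 2 * sq2 m x a) ^ (q / 2) + W ^ (q / 2))) := by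
          rw [Real.mul_rpow zero_le_two (by positivity)]
          gcongr
          exact add_rpow_le (by positivity) hW0 (by positivity)
      _ = _ := by
          rw [← mul_assoc, ← Real.rpow_add two_pos, add_halves, Real.mul_rpow (by positivity) hs,
            sq_rpow _ hB0]
  have h6 : |B| ^ q ≤ ((1 + C) * |B|) ^ q := by gcongr; nlinarith
  have h7 : (C * |B|) ^ q ≤ ((1 + C) * |B|) ^ q := by gcongr; linarith
  have h8 : (2 : ℝ) ≤ 2 ^ q := by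
    simpa using Real.rpow_le_rpow_of_exponent_le one_le_two m.one_lt.le
  calc _ ≤ 2 ^ q * (|B| ^ q * M + (C * |B|) ^ q * M) := by
        refine (sum_le_sum fun a _ => h5 a).trans ?_
        rw [← mul_sum, sum_add_distrib, ← mul_sum]
        gcongr
    _ ≤ 2 ^ q * (2 ^ q * (((1 + C) * |B|) ^ q * M)) := by
        gcongr
        have : 0 ≤ ((1 + C) * |B|) ^ q * M := by positivity
        nlinarith [mul_le_mul_of_nonneg_right h6 hM0, mul_le_mul_of_nonneg_right h7 hM0]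
    _ = _ := by
        rw [hM, ← Real.mul_rpow (by positivity) (by positivity),
          ← Real.mul_rpow (by positivity) (by positivity),
          ← Real.mul_rpow (by positivity) (by positivity)]
        congr 1; ring

lemma rBounded_res (h : s.toDat.SqB q) {ω : ℝ} (hω : 0 < ω) :
    RBounded {T | ∃ l ∉ closure (sector ω), T = l • res (s.op m) l} := by
  obtain ⟨c, hc, hc', h1⟩ := exists_cos hω
  obtain ⟨C, hC⟩ := s.rBounded m h (kap c ^ 2)⁻¹
  refine ⟨C, fun n T x hT => hC n T x fun k => ?_⟩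
  obtain ⟨l, hl, e⟩ := hT k
  have h2 := h1 l fun h2 => hl (subset_closure h2)
  have h3 := good_res hc hc' h2
  have hk := kap_pos hc
  refine ⟨_, good_smul h3 l ?_, ?_⟩
  · have := norm_nonneg l
    calc ‖l‖ * _ ≤ (‖l‖ + 1) * ((kap c ^ 2)⁻¹ * (‖l‖ + 1)⁻¹) := by gcongr; linarith
      _ = _ := by field_simp
  · rw [e, s.res_eq m hc hc' h2]
    refine (s.Phi_eq m fun x => ?_).symm
    rw [smul_apply, map_smul, s.ev_Phi m h3, P_smul]

lemma rAnalytic (h : s.toDat.SqB q) : RAnalytic (s.op m) := by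
  have hπ := Real.pi_pos
  have e : {ω ∈ Set.Ioo (angle (s.op m)) Real.pi |
      RBounded {T | ∃ l ∉ closure (sector ω), T = l • res (s.op m) l}} = Set.Ioo 0 Real.pi := by
    rw [s.angle_eq m]
    ext ω
    exact ⟨fun h => h.1, fun h' => ⟨h', s.rBounded_res m h h'.1⟩⟩
  refine ⟨⟨Real.pi / 2, ?_, s.rBounded_res m h (by linarith)⟩, ?_⟩
  · rw [s.angle_eq m]; constructor <;> linarith
  · rw [angleR, e, csInf_Ioo hπ]; linarith

lemma unb (h : s.toDat.Unb' q) : s.Unb m := by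
  intro C
  have hq := m.pos
  obtain ⟨L, x, G, F, hx, h⟩ := h (|C| ^ q)
  obtain ⟨v, hv⟩ := m.exists_of_finite G hx
  refine ⟨L, v, fun ρ y hρ hy => ?_⟩
  have h1 := h ρ hρ
  rw [← hv, ← m.norm_rpow_of_finite G (by rwa [hv]),
    ← Real.mul_rpow (abs_nonneg _) (norm_nonneg _)] at h1
  have h2 := m.sum_le y F
  rw [hy] at h2
  exact (mul_le_mul_of_nonneg_right (le_abs_self C) (norm_nonneg _)).trans_lt
    ((Real.rpow_lt_rpow_iff (by positivity) (norm_nonneg _) hq).1 (h1.trans_le h2))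

lemma unR (h : s.toDat.UnSq q) : s.UnR m := by
  classical
  intro C
  have hq := m.pos
  obtain ⟨C1, hC1, h1⟩ := rad_le_sq m
  obtain ⟨C2, hC2, h2⟩ := sq_le_rad m
  obtain ⟨J, t, x, G, F, ht, hx, h⟩ := h ((C2 * (|C| * C1)) ^ q)
  choose v hv using fun z => m.exists_of_finite G (hx z)
  let e : Fin J.card → ι := fun k => J.equivFin.symm k
  have he : ∀ f : ι → ℝ, ∑ k, f (e k) = ∑ z ∈ J, f z := fun f => by
    rw [← sum_coe_sort J, ← J.equivFin.symm.sum_comp]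
  refine ⟨J.card, fun k => t (e k), fun k => v (e k), fun k => ht _, fun y hy => ?_⟩
  set Y := ∑ a ∈ G, (∑ z ∈ J, ‖x z a‖ ^ 2) ^ (q / 2) with hY
  have hY0 : 0 ≤ Y := by positivity
  have h3 := h1 _ (fun k => v (e k)) (Y ^ q⁻¹) (by positivity) fun F' => by
    rw [Real.rpow_inv_rpow hY0 hq.ne', hY]
    simp only [sq2, hv, fun a => he fun z => ‖x z a‖ ^ 2]
    rw [← sum_subset (inter_subset_left (s₂ := G)) fun a ha ha' => ?_]
    · exact sum_le_sum_of_subset_of_nonneg inter_subset_right fun _ _ _ => by positivity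
    · have : a ∉ G := fun h => ha' (mem_inter.2 ⟨ha, h⟩)
      simp [hx _ a this, hq.ne']
  have h4 := h2 _ y F
  simp only [sq2, hy, hv,
    fun a => he fun z => ‖s.P (fun l => ((t z / (t z + dd l) : ℝ) : ℂ)) (x z) a‖ ^ 2] at h4
  by_contra h5
  have h6 : radNorm y ≤ |C| * (C1 * Y ^ q⁻¹) := (not_lt.1 h5).trans
    (mul_le_mul (le_abs_self C) h3 (radNorm_nonneg _) (abs_nonneg C))
  have := radNorm_nonneg y
  refine absurd (h.trans_le h4) (not_lt.2 ?_)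
  calc _ ≤ (C2 * (|C| * (C1 * Y ^ q⁻¹))) ^ q := by gcongr
    _ = _ := by
      rw [show C2 * (|C| * (C1 * Y ^ q⁻¹)) = C2 * (|C| * C1) * Y ^ q⁻¹ by ring,
        Real.mul_rpow (by positivity) (by positivity), Real.rpow_inv_rpow hY0 hq.ne']

end Sys2

end Pool.Agent.MP_a83649_an.WS
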