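import Pool.Agent.MP_a83649_an.WS.Bound

/-! Test vectors on the trees. -/

open Finset Filter

namespace Pool.Agent.MP_a83649_an.WS

lemma grow (C : ℝ) {u v : ℝ} (h : u < v) : ∃ N : ℕ, C * (N : ℝ) ^ u < (N : ℝ) ^ v := by
  obtain ⟨N, h1, h2⟩ := ((eventually_ge_atTop 1).and (((tendsto_rpow_atTop
    (sub_pos.2 h)).comp tendsto_natCast_atTop_atTop).eventually_gt_atTop C)).exists
  have h0 : (0 : ℝ) < N := by exact_mod_cast h1
  refine ⟨N, ?_⟩
  rw [Function.comp_apply, Real.rpow_sub h0, lt_div_iff₀ (by positivity)] at h2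
  exact h2

lemma ht_D {n : ℕ} {x y : Nd} (h : x ∈ D n y) : x.2.1 + n = y.2.1 := by
  rw [← (mem_D.1 h).2]; rfl

/-- The proper descendants of the root of height `N`. -/
def Ds (s : Bool) (N : ℕ) : Finset Nd := (range N).biUnion fun n => D (n + 1) (s, N, 1)

lemma sum_Ds {M : Type*} [AddCommMonoid M] (s : Bool) (N : ℕ) (u : Nd → M) :
    ∑ x ∈ Ds s N, u x = ∑ n ∈ range N, ∑ x ∈ D (n + 1) (s, N, 1), u x := by
  refine sum_biUnion fun a _ b _ hab => disjoint_left.2 fun x h1 h2 => hab ?_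
  have := ht_D h1; have := ht_D h2; omega

lemma mem_Ds {s : Bool} {N n : ℕ} {x : Nd} (h : x ∈ D (n + 1) (s, N, 1)) : x ∈ Ds s N :=
  mem_biUnion.2 ⟨n, mem_range.2 (by have := ht_D h; simp only at this; omega), h⟩

lemma gen_eq {s : Bool} {N n : ℕ} {x : Nd} (h : x ∈ D n (s, N, 1)) : N - x.2.1 = n := by
  have := ht_D h; simp only at this; omega

lemma sum_Ds_gen (s : Bool) (N : ℕ) (u : ℝ) : ∑ x ∈ Ds s N, u ^ (N - x.2.1) =
    ∑ n ∈ range N, (2 * u) ^ (n + 1) := by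
  rw [sum_Ds]
  refine sum_congr rfl fun n hn => ?_
  rw [sum_congr rfl (g := fun _ => u ^ (n + 1)) fun x hx => by rw [gen_eq hx], sum_const,
    card_D s (mem_range.1 hn), nsmul_eq_mul, mul_pow]
  simp

lemma le_sum_Ds (s : Bool) (N : ℕ) {u : ℝ} (h : 1 ≤ 2 * u) :
    (N : ℝ) ≤ ∑ x ∈ Ds s N, u ^ (N - x.2.1) := by
  rw [sum_Ds_gen]
  simpa using card_nsmul_le_sum (range N) (fun n => (2 * u) ^ (n + 1)) 1
    fun n _ => one_le_pow₀ h

lemma sum_Ds_half (s : Bool) (N : ℕ) : ∑ x ∈ Ds s N, (2⁻¹ : ℝ) ^ (N - x.2.1) = N := by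
  rw [sum_Ds_gen]; simp

variable {θ : Bool → ℝ}

lemma P_single (g : ℕ → ℂ) (c : ℂ) {n : ℕ} {a z : Nd} (h : z ∈ E (n + 1) a) :
    (tree θ).P g (Pi.single z c) a =
      (θ a.1 : ℂ) ^ (n + 1) * ((g (lev (low a z)) - g (plev (low a z))) * c) := by
  have h1 : ∀ k, z ∈ E k a → k = n + 1 := by
    intro k hk
    unfold E at h hk
    split_ifs at h hk
    · have := ht_D h; have := ht_D hk; omega
    · have := ht_D (mem_U.1 h); have := ht_D (mem_U.1 hk); omega
  have h2 : a ≠ z := by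
    rintro rfl
    unfold E at h
    split_ifs at h
    · have := ht_D h; omega
    · have := ht_D (mem_U.1 h); omega
  rw [tree_P θ g _ a (K := a.2.1 + a.2.2 + n + 1) (by omega), Pi.single_eq_of_ne h2, mul_zero,
    zero_add, sum_eq_single n (fun k _ hk => ?_) fun hn => absurd (mem_range.2 (by omega)) hn]
  · rw [sum_eq_single z (fun y _ hy => by rw [Pi.single_eq_of_ne hy, mul_zero])
      fun hz => absurd h hz, Pi.single_eq_same]
  · rw [sum_eq_zero fun y hy => ?_, mul_zero]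
    rw [Pi.single_eq_of_ne, mul_zero]
    rintro rfl
    exact hk (by have := h1 _ hy; omega)

lemma alt_eq (ρ : ℕ → ℝ) (x : Nd) : ((ρ (lev x) : ℂ) * (-1) ^ lev x - ρ (plev x) * (-1) ^ plev x) *
    (-1) ^ lev x = ((ρ (lev x) + ρ (plev x) : ℝ) : ℂ) := by
  have : ((-1 : ℂ) ^ lev x) * (-1) ^ lev x = 1 := by rw [← mul_pow]; simp
  rw [neg_one_pow_lev]
  push_cast
  linear_combination (ρ (lev x) + ρ (plev x)) * this

lemma alt_ge {ρ : ℕ → ℝ} {s : Bool} {N : ℕ} (hρ : ∀ n ≤ (Ds s N).sup plev, 1 / 4 ≤ ρ n) {x : Nd}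
    (hx : x ∈ Ds s N) : 1 / 2 ≤ ρ (lev x) + ρ (plev x) := by
  have h1 : plev x ≤ (Ds s N).sup plev := le_sup hx
  have := hρ _ h1
  have := hρ (lev x) (by have := lev_lt x; omega)
  linarith

lemma res_ge (x : Nd) : 1 / 4 ≤ dd (lev x) / (dd (lev x) + dd (lev x)) -
    dd (lev x) / (dd (lev x) + dd (plev x)) := by
  have h2 := dd_mono (lev_lt x)
  have h3 : dd (lev x + 1) = Real.exp Real.pi * dd (lev x) := by
    unfold dd; rw [← Real.exp_add]; congr 1; push_cast; ring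
  have h4 := dd_pos (lev x)
  have h5 : 3 ≤ Real.exp Real.pi := by
    linarith [Real.add_one_le_exp Real.pi, Real.pi_gt_three]
  have h6 : dd (lev x) / (dd (lev x) + dd (plev x)) ≤ 1 / 4 := by
    rw [div_le_div_iff₀ (by nlinarith) (by norm_num)]; nlinarith
  have h7 : dd (lev x) / (dd (lev x) + dd (lev x)) = 1 / 2 := by field_simp; ring
  linarith

lemma pow_rpow (u : ℝ) (hu : 0 ≤ u) (n : ℕ) (t : ℝ) : (u ^ n) ^ t = (u ^ t) ^ n := by
  rw [← Real.rpow_natCast, ← Real.rpow_natCast, ← Real.rpow_mul hu, ← Real.rpow_mul hu, mul_comm]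

lemma E_false {n N : ℕ} {x : Nd} (h : x ∈ D n (false, N, 1)) : (false, N, 1) ∈ E n x := by
  rw [E, if_neg (by simp [side_D h])]; exact mem_U.2 h

lemma low_false {n N : ℕ} {x : Nd} (h : x ∈ D n (false, N, 1)) (y : Nd) : low x y = x :=
  if_neg (by simp [side_D h])

variable {q : ℝ}

lemma unb_false (hq : 0 < q) (h0 : 0 ≤ θ false) (h : 1 ≤ 2 * θ false ^ q) : (tree θ).Unb' q := by
  intro C
  obtain ⟨N, hN⟩ := grow (C * 2 ^ q) zero_lt_one
  refine ⟨(Ds false N).sup plev, Pi.single (false, N, 1) 1, {(false, N, 1)}, Ds false N,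
    fun a ha => Pi.single_eq_of_ne (by simpa using ha) _, fun ρ hρ => ?_⟩
  simp only [Real.rpow_zero, mul_one, Real.rpow_one] at hN
  simp only [sum_singleton, Pi.single_eq_same, norm_one, Real.one_rpow, mul_one]
  rw [← lt_div_iff₀ (by positivity)] at hN
  refine hN.trans_le ((div_le_div_of_nonneg_right (le_sum_Ds false N h) (by positivity)).trans ?_)
  rw [sum_div]
  refine sum_le_sum fun x hx => ?_
  obtain ⟨n, -, hn⟩ := mem_biUnion.1 hx
  have h1 := congrArg norm (alt_eq ρ x)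
  have h2 := alt_ge hρ hx
  rw [norm_mul, norm_pow, norm_neg, norm_one, one_pow, mul_one, Complex.norm_real,
    Real.norm_of_nonneg (by linarith)] at h1
  rw [P_single _ _ (E_false hn), low_false hn, gen_eq hn, side_D hn, mul_one, norm_mul, h1,
    norm_pow, Complex.norm_real, Real.norm_of_nonneg h0, ← pow_rpow _ h0,
    ← Real.div_rpow (by positivity) zero_le_two, div_eq_mul_one_div]
  gcongr

lemma unb_true (hq : 1 < q) (h0 : 0 ≤ θ true) (h : 1 ≤ 2 * (θ true * 2⁻¹ ^ q⁻¹)) :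
    (tree θ).Unb' q := by
  intro C
  have hq0 : 0 < q := by linarith
  obtain ⟨N, hN⟩ := grow (C * 2 ^ q) hq
  set β : ℝ := 2⁻¹ ^ q⁻¹ with hβ
  have β0 : 0 < β := by positivity
  refine ⟨(Ds true N).sup plev, fun x => if x ∈ Ds true N then
    (-1) ^ lev x * ((β ^ (N - x.2.1) : ℝ) : ℂ) else 0, Ds true N, {(true, N, 1)},
    fun a ha => if_neg ha, fun ρ hρ => ?_⟩
  have h1 : (true, N, 1) ∉ Ds true N := fun hx => by
    obtain ⟨n, -, hn⟩ := mem_biUnion.1 hx
    have := ht_D hn; omega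
  beta_reduce
  rw [sum_congr rfl (g := fun x => (2⁻¹ : ℝ) ^ (N - x.2.1)) fun x hx => by
    rw [if_pos hx, norm_mul, norm_pow, norm_neg, norm_one, one_pow, one_mul, Complex.norm_real,
      Real.norm_of_nonneg (by positivity), pow_rpow _ β0.le, hβ,
      Real.rpow_inv_rpow (by norm_num) hq0.ne'], sum_Ds_half, sum_singleton,
    tree_P θ _ _ _ (K := N + 1) le_rfl, if_neg h1, mul_zero, zero_add, sum_range_succ, E,
    if_pos rfl, D_empty (Nat.lt_succ_self N), sum_empty, mul_zero, add_zero]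
  have h2 : ∑ n ∈ range N, (θ true : ℂ) ^ (n + 1) * ∑ y ∈ E (n + 1) (true, N, 1),
      ((ρ (lev (low (true, N, 1) y)) : ℂ) * (-1) ^ lev (low (true, N, 1) y) -
        ρ (plev (low (true, N, 1) y)) * (-1) ^ plev (low (true, N, 1) y)) *
      (if y ∈ Ds true N then (-1) ^ lev y * ((β ^ (N - y.2.1) : ℝ) : ℂ) else 0) =
      ((∑ x ∈ Ds true N, (θ true * β) ^ (N - x.2.1) * (ρ (lev x) + ρ (plev x)) : ℝ) : ℂ) := by
    rw [sum_Ds, Complex.ofReal_sum]
    refine sum_congr rfl fun n _ => ?_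
    rw [E, if_pos rfl, mul_sum, Complex.ofReal_sum]
    refine sum_congr rfl fun x hx => ?_
    rw [if_pos (mem_Ds hx), low, if_pos rfl, ← mul_assoc _ ((-1) ^ lev x), alt_eq, gen_eq hx]
    push_cast; ring
  have h3 : (N : ℝ) / 2 ≤ ∑ x ∈ Ds true N, (θ true * β) ^ (N - x.2.1) * (ρ (lev x) + ρ (plev x)) := by
    refine (div_le_div_of_nonneg_right (le_sum_Ds true N h) zero_le_two).trans ?_
    rw [sum_div]
    refine sum_le_sum fun x hx => ?_
    rw [div_eq_mul_one_div]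
    exact mul_le_mul_of_nonneg_left (alt_ge hρ hx) (by positivity)
  rw [h2, Complex.norm_real, Real.norm_of_nonneg (le_trans (by positivity) h3)]
  refine lt_of_lt_of_le ?_ (Real.rpow_le_rpow (by positivity) h3 hq0.le)
  rw [Real.div_rpow (by positivity) zero_le_two, lt_div_iff₀ (by positivity)]
  rw [Real.rpow_one] at hN
  linarith

lemma norm_res {a z x : Nd} {n : ℕ} (h0 : 0 ≤ θ a.1) (h : z ∈ E (n + 1) a) (hx : low a z = x)
    {c : ℝ} (hc : 0 ≤ c) : θ a.1 ^ (n + 1) * c / 4 ≤ ‖(tree θ).P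
      (fun l => ((dd (lev x) / (dd (lev x) + dd l) : ℝ) : ℂ)) (Pi.single z (c : ℂ)) a‖ := by
  have h1 := res_ge x
  rw [P_single _ _ h, hx, ← Complex.ofReal_sub, ← Complex.ofReal_pow, ← Complex.ofReal_mul,
    ← Complex.ofReal_mul, Complex.norm_real, Real.norm_of_nonneg
      (mul_nonneg (by positivity) (mul_nonneg (by linarith) hc)), mul_div_assoc]
  gcongr
  nlinarith

lemma unSq_false (hq : 0 < q) (hq2 : q < 2) (h0 : 0 ≤ θ false)
    (h : 1 ≤ 2 * (θ false * 2⁻¹ ^ (2⁻¹ : ℝ)) ^ q) : (tree θ).UnSq q := by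
  intro C
  obtain ⟨N, hN⟩ := grow (C * 4 ^ q) (u := q / 2) (v := 1) (by linarith)
  set β : ℝ := 2⁻¹ ^ (2⁻¹ : ℝ) with hβ
  have β0 : 0 < β := by positivity
  have β2 : β ^ 2 = 2⁻¹ := by
    rw [hβ, ← Real.rpow_natCast, ← Real.rpow_mul (by norm_num)]; norm_num
  refine ⟨Ds false N, fun z => dd (lev z),
    fun z => Pi.single (false, N, 1) ((β ^ (N - z.2.1) : ℝ) : ℂ), {(false, N, 1)}, Ds false N,
    fun z => dd_pos _, fun z a ha => Pi.single_eq_of_ne (by simpa using ha) _, ?_⟩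
  simp only [sum_singleton, Pi.single_eq_same, Complex.norm_real, Real.norm_eq_abs, sq_abs]
  simp only [← pow_mul, mul_comm _ 2]
  simp only [pow_mul, β2, sum_Ds_half]
  rw [Real.rpow_one, mul_right_comm, ← lt_div_iff₀ (by positivity)] at hN
  refine hN.trans_le ((div_le_div_of_nonneg_right (le_sum_Ds false N h) (by positivity)).trans ?_)
  rw [sum_div]
  refine sum_le_sum fun x hx => ?_
  obtain ⟨n, -, hn⟩ := mem_biUnion.1 hx
  have h1 := norm_res (θ := θ) (by rw [side_D hn]; exact h0) (E_false hn) (low_false hn _)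
    (c := β ^ (N - x.2.1)) (by positivity)
  rw [side_D hn, ← gen_eq hn, ← mul_pow] at h1
  rw [← pow_rpow _ (by positivity), ← Real.div_rpow (by positivity) (by norm_num),
    ← sq_rpow _ (by positivity)]
  refine Real.rpow_le_rpow (by positivity) ((pow_le_pow_left₀ (by positivity) h1 2).trans ?_)
    (by positivity)
  exact single_le_sum (f := fun z => ‖(tree θ).P
    (fun l => ((dd (lev z) / (dd (lev z) + dd l) : ℝ) : ℂ))
      (Pi.single (false, N, 1) ((β ^ (N - z.2.1) : ℝ) : ℂ)) x‖ ^ 2) (fun _ _ => by positivity) hx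

lemma unSq_true (hq2 : 2 < q) (h0 : 0 ≤ θ true) (h : 1 ≤ 2 * (θ true * 2⁻¹ ^ q⁻¹) ^ 2) :
    (tree θ).UnSq q := by
  intro C
  have hq : 0 < q := by linarith
  obtain ⟨N, hN⟩ := grow (C * 16 ^ (q / 2)) (u := 1) (v := q / 2) (by linarith)
  set β : ℝ := 2⁻¹ ^ q⁻¹ with hβ
  have β0 : 0 < β := by positivity
  refine ⟨Ds true N, fun z => dd (lev z),
    fun z => if z ∈ Ds true N then Pi.single z ((β ^ (N - z.2.1) : ℝ) : ℂ) else 0, Ds true N,
    {(true, N, 1)}, fun z => dd_pos _, fun z a ha => ?_, ?_⟩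
  · beta_reduce
    split_ifs with hz
    · exact Pi.single_eq_of_ne (fun e : a = z => ha (e ▸ hz)) _
    · rfl
  beta_reduce
  rw [sum_congr rfl (g := fun x => (2⁻¹ : ℝ) ^ (N - x.2.1)) fun x hx => by
    rw [sum_eq_single x (fun z hz hzx => by simp [hz, Ne.symm hzx]) fun h => absurd hx h,
      if_pos hx, Pi.single_eq_same, sq_rpow _ (norm_nonneg _), Complex.norm_real,
      Real.norm_of_nonneg (by positivity), pow_rpow _ β0.le, hβ,
      Real.rpow_inv_rpow (by norm_num) hq.ne'], sum_Ds_half, sum_singleton]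
  rw [Real.rpow_one, mul_right_comm, ← lt_div_iff₀ (by positivity),
    ← Real.div_rpow (by positivity) (by norm_num)] at hN
  refine hN.trans_le (Real.rpow_le_rpow (by positivity) ?_ (by positivity))
  refine (div_le_div_of_nonneg_right (le_sum_Ds true N h) (by positivity)).trans ?_
  rw [sum_div]
  refine sum_le_sum fun x hx => ?_
  obtain ⟨n, -, hn⟩ := mem_biUnion.1 hx
  have h1 := norm_res (θ := θ) (a := (true, N, 1)) (z := x) (x := x) (n := n) h0
    (by rw [E, if_pos rfl]; exact hn) rfl (c := β ^ (N - x.2.1)) (by positivity)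
  rw [← gen_eq hn, ← mul_pow] at h1
  rw [if_pos hx]
  refine le_of_eq_of_le ?_ (pow_le_pow_left₀ (by positivity) h1 2)
  rw [div_pow, ← pow_mul, ← pow_mul, mul_comm 2]
  norm_num

end Pool.Agent.MP_a83649_an.WS
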