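import Pool.Agent.MP_a83649_an.WS.RFrame

/-! Two forests of binary trees. A node (s, h, j) has height `h` and parent (s, h + 1, j / 2)
when `2 ≤ j`; the levels run through each tree in post-order. -/

open Finset

namespace Pool.Agent.MP_a83649_an.WS

abbrev Nd : Type := Bool × ℕ × ℕ

def lv (h j : ℕ) : ℕ := 2 * ((j + 1) * 2 ^ h) ^ 2 + h

def lev (a : Nd) : ℕ := lv a.2.1 a.2.2

def anc (n : ℕ) (a : Nd) : Nd := (a.1, a.2.1 + n, a.2.2 / 2 ^ n)

def plev (a : Nd) : ℕ := lev (anc 1 a)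

lemma anc_anc (n k : ℕ) (a : Nd) : anc n (anc k a) = anc (k + n) a := by
  simp [anc, add_assoc, Nat.div_div_eq_div_mul, pow_add]

lemma lev_lt (a : Nd) : lev a + 1 ≤ plev a := by
  obtain ⟨s, h, j⟩ := a
  simp only [plev, lev, anc, lv, pow_one]
  have h1 : (j + 1) * 2 ^ h ≤ (j / 2 + 1) * 2 ^ (h + 1) := by
    rw [pow_succ', ← mul_assoc]
    exact Nat.mul_le_mul_right _ (by omega)
  have := Nat.pow_le_pow_left h1 2
  omega

lemma lv_le {h j : ℕ} (hj : 2 ≤ j) : lv (h + 1) (j / 2 - 1) ≤ lv h j := by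
  unfold lv
  have h0 : 0 < 2 ^ h := by positivity
  have h1 : (j / 2 - 1 + 1) * 2 ^ (h + 1) < (j + 1) * 2 ^ h := by
    rw [pow_succ', ← mul_assoc]
    exact Nat.mul_lt_mul_of_pos_right (by omega) h0
  have := Nat.pow_lt_pow_left h1 two_ne_zero
  omega

lemma neg_one_pow_lev (a : Nd) : (-1 : ℂ) ^ plev a = -(-1) ^ lev a := by
  simp [plev, lev, anc, lv, pow_add, pow_mul]

/-- The descendants in generation `n`. -/
def D (n : ℕ) (y : Nd) : Finset Nd :=
  if y.2.2 = 0 ∨ y.2.1 < n then ∅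
  else (range (2 ^ n)).image fun i => (y.1, y.2.1 - n, y.2.2 * 2 ^ n + i)

lemma mem_D {n : ℕ} {x y : Nd} : x ∈ D n y ↔ 2 ^ n ≤ x.2.2 ∧ anc n x = y := by
  obtain ⟨s, h, j⟩ := x
  obtain ⟨s', h', j'⟩ := y
  have h0 : 0 < 2 ^ n := by positivity
  simp only [D, anc, Prod.mk.injEq]
  split_ifs with h1
  · simp only [notMem_empty, false_iff, not_and]
    rintro h2 - rfl rfl
    have := Nat.div_pos h2 h0
    omega
  · simp only [mem_image, mem_range, Prod.mk.injEq]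
    constructor
    · rintro ⟨i, hi, rfl, rfl, rfl⟩
      refine ⟨?_, rfl, by omega, ?_⟩
      · have : 1 * 2 ^ n ≤ j' * 2 ^ n := Nat.mul_le_mul_right _ (by omega)
        omega
      · rw [mul_comm, Nat.mul_add_div h0, Nat.div_eq_of_lt hi, add_zero]
    · rintro ⟨-, rfl, rfl, rfl⟩
      exact ⟨j % 2 ^ n, Nat.mod_lt _ h0, rfl, by omega, Nat.div_add_mod' _ _⟩

lemma card_D_le (n : ℕ) (y : Nd) : (D n y).card ≤ 2 ^ n := by
  unfold D
  split_ifs
  · simp
  · exact card_image_le.trans (by simp)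

lemma card_D {n N : ℕ} (s : Bool) (h : n ≤ N) : (D n (s, N, 1)).card = 2 ^ n := by
  rw [D, if_neg (by simpa using h), card_image_of_injective _ fun a b h => by simpa using h]
  simp

lemma D_empty {n : ℕ} {y : Nd} (h : y.2.1 < n) : D n y = ∅ := if_pos (Or.inr h)

lemma sum_D {M : Type*} [AddCommMonoid M] (n : ℕ) (y : Nd) (u : Nd → M) :
    ∑ x ∈ D (n + 1 + 1) y, u x = ∑ c ∈ D 1 y, ∑ x ∈ D (n + 1) c, u x := by
  have h0 : 0 < 2 ^ (n + 1) := by positivity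
  rw [← sum_fiberwise_of_maps_to (t := D 1 y) (g := anc (n + 1)) fun x hx => ?_]
  · refine sum_congr rfl fun c hc => sum_congr ?_ fun _ _ => rfl
    ext x
    rw [mem_filter, mem_D, mem_D]
    obtain ⟨h1, rfl⟩ := mem_D.1 hc
    constructor
    · rintro ⟨⟨h2, -⟩, h3⟩
      exact ⟨le_trans (Nat.pow_le_pow_right two_pos (by omega)) h2, h3⟩
    · rintro ⟨-, rfl⟩
      refine ⟨⟨?_, by rw [anc_anc]⟩, rfl⟩
      rw [pow_succ']
      exact (Nat.le_div_iff_mul_le h0).1 h1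
  · obtain ⟨h1, rfl⟩ := mem_D.1 hx
    refine mem_D.2 ⟨?_, by rw [anc_anc]⟩
    rw [pow_succ'] at h1
    exact (Nat.le_div_iff_mul_le h0).2 h1

/-- The jump of `φ` along the edge to the parent. -/
def dl (φ : ℕ → ℝ) (x : Nd) : ℝ := φ (lev x) - φ (plev x)

variable {φ : ℕ → ℝ} {B : ℝ}

lemma Mon.nonneg (h : Mon φ B) : 0 ≤ B := (h.2.1 0).trans (h.2.2 0)

lemma dl_nonneg (h : Mon φ B) (x : Nd) : 0 ≤ dl φ x :=
  sub_nonneg.2 (h.1 ((Nat.le_succ _).trans (lev_lt x)))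

lemma dl_le (h : Mon φ B) (x : Nd) : dl φ x ≤ 2 * B := by
  have := h.2.2 (lev x); have := h.2.1 (plev x); have := h.nonneg
  unfold dl; linarith

lemma sum_dl_range (hφ : Mon φ B) (s : Bool) (h N : ℕ) :
    ∑ j ∈ range (2 * N), dl φ (s, h, j) ≤ 2 * B := by
  let ψ : ℕ → ℝ := fun i => if i = 0 then B else φ (lv (h + 1) (i - 1))
  have h1 : ∀ j, dl φ (s, h, j) ≤ ψ (j / 2) - ψ (j / 2 + 1) := by
    intro j
    simp only [dl, plev, lev, anc, ψ, pow_one, Nat.add_sub_cancel, Nat.succ_ne_zero, if_false]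
    split_ifs with h2
    · linarith [hφ.2.2 (lv h j)]
    · linarith [hφ.1 (lv_le (h := h) (j := j) (by omega))]
  refine (sum_le_sum fun j _ => h1 j).trans ?_
  rw [sum_range_div (fun i => ψ i - ψ (i + 1)) two_pos, sum_range_sub']
  have : 0 ≤ ψ N := by
    simp only [ψ]; split_ifs; exacts [hφ.nonneg, hφ.2.1 _]
  simp only [ψ, if_true] at this ⊢
  push_cast
  linarith

lemma sum_dl_D (hφ : Mon φ B) (n : ℕ) (y : Nd) : ∑ x ∈ D n y, dl φ x ≤ 2 * B := by
  refine le_trans ?_ (sum_dl_range hφ y.1 (y.2.1 - n) ((y.2.2 + 1) * 2 ^ n))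
  rw [← sum_image (s := range (2 * ((y.2.2 + 1) * 2 ^ n))) (g := fun j => (y.1, y.2.1 - n, j))
    (f := dl φ) fun a _ b _ h => by simpa using h]
  refine sum_le_sum_of_subset_of_nonneg (fun x hx => ?_) fun x _ _ => dl_nonneg hφ x
  unfold D at hx
  split_ifs at hx
  · simp at hx
  · obtain ⟨i, hi, rfl⟩ := mem_image.1 hx
    refine mem_image.2 ⟨_, mem_range.2 ?_, rfl⟩
    have := mem_range.1 hi
    rw [add_mul]; omega

/-- The ancestor in generation `n`, if there is one. -/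
def U (n : ℕ) (x : Nd) : Finset Nd := if 2 ^ n ≤ x.2.2 then {anc n x} else ∅

lemma mem_U {n : ℕ} {x y : Nd} : y ∈ U n x ↔ x ∈ D n y := by
  rw [mem_D, U]
  split_ifs with h <;> simp [h, eq_comm]

lemma card_U_le (n : ℕ) (x : Nd) : (U n x).card ≤ 1 := by
  unfold U; split_ifs <;> simp

lemma U_empty {n : ℕ} {x : Nd} (h : x.2.2 ≤ n) : U n x = ∅ :=
  if_neg (not_le.2 (h.trans_lt Nat.lt_two_pow_self))

lemma sum_dl_U (hφ : Mon φ B) (n : ℕ) (x : Nd) : ∑ _y ∈ U n x, dl φ x ≤ 2 * B := by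
  unfold U; split_ifs
  · simpa using dl_le hφ x
  · simpa using hφ.nonneg

lemma side_D {n : ℕ} {x y : Nd} (h : x ∈ D n y) : x.1 = y.1 := by
  rw [← (mem_D.1 h).2]; rfl

/-- The neighbours in a row. -/
def E (n : ℕ) (a : Nd) : Finset Nd := if a.1 then D n a else U n a

/-- The neighbours in a column. -/
def E' (n : ℕ) (a : Nd) : Finset Nd := if a.1 then U n a else D n a

/-- The lower end of an edge. -/
def low (a y : Nd) : Nd := if a.1 then y else a

lemma side_E {n : ℕ} {a b : Nd} (h : b ∈ E n a) : b.1 = a.1 := by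
  unfold E at h
  split_ifs at h
  exacts [side_D h, (side_D (mem_U.1 h)).symm]

lemma mem_E' {n : ℕ} {a b : Nd} : a ∈ E' n b ↔ b ∈ E n a := by
  obtain ⟨s, a⟩ := a
  obtain ⟨t, b⟩ := b
  cases s <;> cases t <;> simp [E, E', mem_U] <;>
    exact ⟨fun h => absurd (side_D h) (by simp), fun h => absurd (side_D h) (by simp)⟩

lemma E_empty {n : ℕ} {a : Nd} (h : a.2.1 + a.2.2 < n) : E n a = ∅ := by
  unfold E; split_ifs
  exacts [D_empty (by omega), U_empty (by omega)]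

lemma E'_empty {n : ℕ} {a : Nd} (h : a.2.1 + a.2.2 < n) : E' n a = ∅ := by
  unfold E'; split_ifs
  exacts [U_empty (by omega), D_empty (by omega)]

lemma row_E (hφ : Mon φ B) (n : ℕ) (a : Nd) : ∑ y ∈ E n a, dl φ (low a y) ≤ 2 * B := by
  unfold E low; split_ifs
  exacts [sum_dl_D hφ n a, sum_dl_U hφ n a]

lemma col_E (hφ : Mon φ B) (n : ℕ) (b : Nd) : ∑ a ∈ E' n b, dl φ (low a b) ≤ 2 * B := by
  rw [sum_congr rfl (g := fun a => dl φ (if b.1 then b else a)) fun a ha => by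
    rw [side_E (mem_E'.1 ha)]; rfl]
  unfold E'; split_ifs
  exacts [sum_dl_U hφ n b, sum_dl_D hφ n b]

lemma card_E (n : ℕ) (a : Nd) : ((E n a).card : ℝ) ≤ (if a.1 then 2 else 1) ^ n := by
  unfold E; split_ifs
  · exact_mod_cast card_D_le n a
  · rw [one_pow]; exact_mod_cast card_U_le n a

lemma card_E' (n : ℕ) (a : Nd) : ((E' n a).card : ℝ) ≤ (if a.1 then 1 else 2) ^ n := by
  unfold E'; split_ifs
  · rw [one_pow]; exact_mod_cast card_U_le n a
  · exact_mod_cast card_D_le n a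

/-- Double counting of the edges of generation `n`. -/
lemma sum_E_le (n : ℕ) (F : Finset Nd) (u : Nd → Nd → ℝ) (hu : ∀ a b, 0 ≤ u a b) :
    ∑ a ∈ F, ∑ b ∈ E n a, u a b ≤ ∑ b ∈ F.biUnion (E n), ∑ a ∈ E' n b, u a b := by
  rw [sum_comm' (t' := F.biUnion (E n)) (s' := fun b => F.filter (b ∈ E n ·)) fun a b => by
    simp only [mem_filter, mem_biUnion]
    exact ⟨fun h => ⟨h, a, h⟩, fun h => h.1⟩]
  exact sum_le_sum fun b _ => sum_le_sum_of_subset_of_nonneg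
    (fun a ha => mem_E'.2 (mem_filter.1 ha).2) fun a _ _ => hu a b

/-- The data of the calculus. -/
def tree (θ : Bool → ℝ) : Dat Nd ((_ : ℕ) × Nd) where
  lev := lev
  S a := (range (a.2.1 + a.2.2)).sigma fun n => E (n + 1) a
  nb _ k := k.2
  c a k := θ a.1 ^ (k.1 + 1)
  lo a k := lev (low a k.2)
  hi a k := plev (low a k.2)

lemma sum_S {M : Type*} [AddCommMonoid M] (θ : Bool → ℝ) (a : Nd) {K : ℕ} (hK : a.2.1 + a.2.2 ≤ K)
    (u : ℕ → Nd → M) : ∑ k ∈ (tree θ).S a, u k.1 k.2 = ∑ n ∈ range K, ∑ y ∈ E (n + 1) a, u n y := by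
  simp only [tree]
  rw [sum_sigma]
  refine sum_subset (range_mono hK) fun n _ hn => ?_
  rw [E_empty (by simp only [mem_range] at hn; omega), sum_empty]

lemma tree_w (θ : Bool → ℝ) (a : Nd) (k : (_ : ℕ) × Nd) :
    (tree θ).w φ a k = θ a.1 ^ (k.1 + 1) * dl φ (low a k.2) := rfl

lemma tree_P (θ : Bool → ℝ) (g : ℕ → ℂ) (f : Nd → ℂ) (a : Nd) {K : ℕ} (hK : a.2.1 + a.2.2 ≤ K) :
    (tree θ).P g f a = g (lev a) * f a + ∑ n ∈ range K, (θ a.1 : ℂ) ^ (n + 1) *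
      ∑ y ∈ E (n + 1) a, (g (lev (low a y)) - g (plev (low a y))) * f y := by
  rw [Dat.P_apply]
  congr 1
  simp only [mul_sum, ← mul_assoc, ← Complex.ofReal_pow]
  exact sum_S θ a hK fun n y => ((θ a.1 ^ (n + 1) : ℝ) : ℂ) *
    (g (lev (low a y)) - g (plev (low a y))) * f y

end Pool.Agent.MP_a83649_an.WS
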